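import Pool.Agent.H55.GW.Defs

/-!
# Basic facts about walks, separators, linkages and frames
-/

set_option autoImplicit false

namespace Pool.Agent.H55.GW

variable {W : Type} {D D' : W → W → Prop} {S T X Y : Set W} {x y z : W}

/-! ## Walks inside a set -/

theorem RIn.left_mem (h : RIn D S x y) : x ∈ S := h.1

theorem RIn.right_mem (h : RIn D S x y) : y ∈ S := by
  obtain ⟨h1, h2⟩ := h
  induction h2 with
  | refl => exact h1
  | tail _ h _ => exact h.2

theorem RIn.refl (h : x ∈ S) : RIn D S x x := ⟨h, Relation.ReflTransGen.refl⟩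

theorem RIn.trans (h : RIn D S x y) (h' : RIn D S y z) : RIn D S x z := ⟨h.1, h.2.trans h'.2⟩

theorem RIn.tail (h : RIn D S x y) (h' : D y z) (hz : z ∈ S) : RIn D S x z :=
  ⟨h.1, h.2.tail ⟨h', hz⟩⟩

theorem RIn.single (h : D x y) (hx : x ∈ S) (hy : y ∈ S) : RIn D S x y :=
  (RIn.refl hx).tail h hy

theorem RIn.head (h : D x y) (hx : x ∈ S) (h' : RIn D S y z) : RIn D S x z :=
  (RIn.single h hx h'.1).trans h'

theorem RIn.mono (h : RIn D S x y) (hD : ∀ u v, D u v → u ∈ S → v ∈ S → D' u v)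
    (hST : S ⊆ T) : RIn D' T x y := by
  obtain ⟨h1, h2⟩ := h
  induction h2 with
  | refl => exact RIn.refl (hST h1)
  | @tail b c h3 h4 ih =>
    exact ih.tail (hD _ _ h4.1 (RIn.right_mem ⟨h1, h3⟩) h4.2) (hST h4.2)

theorem RIn.mono_set (h : RIn D S x y) (hST : S ⊆ T) : RIn D T x y :=
  h.mono (fun _ _ h _ _ => h) hST

theorem RIn.rev (h : RIn D S x y) : RIn (fun a b => D b a) S y x := by
  obtain ⟨h1, h2⟩ := h
  induction h2 with
  | refl => exact RIn.refl h1
  | @tail b c h3 h4 ih => exact RIn.head (D := fun a b => D b a) h4.1 h4.2 ih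

theorem rIn_rev : RIn (fun a b => D b a) S y x ↔ RIn D S x y :=
  ⟨fun h => h.rev, fun h => h.rev⟩

/-- induction along a walk -/
theorem RIn.induct {p : W → Prop} (h : RIn D S x y) (hx : p x)
    (hs : ∀ u v, u ∈ S → v ∈ S → D u v → p u → p v) : p y := by
  obtain ⟨h1, h2⟩ := h
  induction h2 with
  | refl => exact hx
  | @tail b c h3 h4 ih => exact hs _ _ (RIn.right_mem ⟨h1, h3⟩) h4.2 h4.1 ih

/-- a walk meeting `T` is cut at its first vertex in `T` -/
theorem RIn.first (h : RIn D S x y) (hy : y ∈ T) :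
    ∃ z ∈ T, RIn D ((S \ T) ∪ {z}) x z ∧ RIn D S z y := by
  obtain ⟨h1, h2⟩ := h
  induction h2 using Relation.ReflTransGen.head_induction_on with
  | refl => exact ⟨y, hy, RIn.refl (Or.inr rfl), RIn.refl h1⟩
  | @head a b h3 h4 ih =>
    by_cases ha : a ∈ T
    · exact ⟨a, ha, RIn.refl (Or.inr rfl), ⟨h1, h4.head h3⟩⟩
    · obtain ⟨z, hz, h5, h6⟩ := ih h3.2
      exact ⟨z, hz, RIn.head h3.1 (Or.inl ⟨h1, ha⟩) h5, h6⟩

/-- a walk starting in `T` is cut at its last vertex in `T` -/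
theorem RIn.last (h : RIn D S x y) (hx : x ∈ T) :
    ∃ z ∈ T, RIn D S x z ∧ RIn D ((S \ T) ∪ {z}) z y := by
  obtain ⟨z, hz, h1, h2⟩ := h.rev.first hx
  exact ⟨z, hz, h2.rev, h1.rev⟩

/-- a walk either avoids `T` or has a first vertex in `T` -/
theorem RIn.avoid_or (h : RIn D S x y) (T : Set W) :
    RIn D (S \ T) x y ∨ ∃ z ∈ T, RIn D ((S \ T) ∪ {z}) x z ∧ RIn D S z y := by
  by_cases hx : x ∈ T
  · exact Or.inr ⟨x, hx, RIn.refl (Or.inr rfl), h⟩
  · obtain ⟨h1, h2⟩ := h
    induction h2 with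
    | refl => exact Or.inl (RIn.refl ⟨h1, hx⟩)
    | @tail b c h3 h4 ih =>
      rcases ih with ih | ⟨z, hz, h5, h6⟩
      · by_cases hc : c ∈ T
        · refine Or.inr ⟨c, hc, (ih.mono_set fun v hv => Or.inl hv).tail h4.1 (Or.inr rfl),
            RIn.refl h4.2⟩
        · exact Or.inl (ih.tail h4.1 ⟨h4.2, hc⟩)
      · exact Or.inr ⟨z, hz, h5, h6.tail h4.1 h4.2⟩

/-- a walk from `x ∉ T` to `y ∈ T` uses an arc into `T` -/
theorem RIn.enter (h : RIn D S x y) (hx : x ∉ T) (hy : y ∈ T) :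
    ∃ u v, RIn D (S \ T) x u ∧ u ∉ T ∧ D u v ∧ v ∈ T ∧ RIn D S v y := by
  obtain ⟨h1, h2⟩ := h
  induction h2 using Relation.ReflTransGen.head_induction_on with
  | refl => exact absurd hy hx
  | @head a b h3 h4 ih =>
    by_cases hb : b ∈ T
    · exact ⟨a, b, RIn.refl ⟨h1, hx⟩, hx, h3.1, hb, ⟨h3.2, h4⟩⟩
    · obtain ⟨u, v, h5, h6, h7, h8, h9⟩ := ih hb h3.2
      exact ⟨u, v, RIn.head h3.1 ⟨h1, hx⟩ h5, h6, h7, h8, h9⟩

/-- if the walk is not trivial it starts with an arc -/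
theorem RIn.cases_head (h : RIn D S x y) : x = y ∨ ∃ z, D x z ∧ z ∈ S ∧ RIn D S z y := by
  obtain ⟨h1, h2⟩ := h
  rcases Relation.ReflTransGen.cases_head h2 with h | ⟨z, h3, h4⟩
  · exact Or.inl h
  · exact Or.inr ⟨z, h3.1, h3.2, ⟨h3.2, h4⟩⟩

theorem RIn.cases_tail (h : RIn D S x y) : x = y ∨ ∃ z, RIn D S x z ∧ D z y := by
  rcases h.rev.cases_head with h | ⟨z, h1, h2, h3⟩
  · exact Or.inl h.symm
  · exact Or.inr ⟨z, h3.rev, h1⟩

/-! ## Simple paths -/

/-- every walk contains a simple path -/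
theorem RIn.exists_path (h : RIn D S x y) : ∃ l, IsPath D l x y ∧ ∀ v ∈ l, v ∈ S := by
  classical
  obtain ⟨h1, h2⟩ := h
  induction h2 using Relation.ReflTransGen.head_induction_on with
  | refl => exact ⟨[y], ⟨by simp, by simp, by simp, by simp⟩, by simpa using h1⟩
  | @head a b h3 h4 ih =>
    obtain ⟨l, ⟨hc, hn, hh, hl⟩, hS⟩ := ih h3.2
    by_cases ha : a ∈ l
    · obtain ⟨l₁, l₂, rfl⟩ := List.append_of_mem ha
      refine ⟨a :: l₂, ⟨?_, ?_, by simp, ?_⟩, ?_⟩
      · exact List.IsChain.right_of_append hc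
      · exact (List.nodup_append.1 hn).2.1
      · rw [List.getLast?_append_of_ne_nil _ (by simp)] at hl
        exact hl
      · intro v hv
        exact hS v (by simp only [List.mem_append]; exact Or.inr hv)
    · refine ⟨a :: l, ⟨?_, ?_, by simp, ?_⟩, ?_⟩
      · cases l with
        | nil => simp
        | cons c l =>
          simp only [List.head?_cons, Option.some.injEq] at hh
          subst hh
          exact List.isChain_cons_cons.2 ⟨h3.1, hc⟩
      · exact List.nodup_cons.2 ⟨ha, hn⟩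
      · cases l with
        | nil => simp at hl
        | cons c l => simpa using hl
      · intro v hv
        rcases List.mem_cons.1 hv with rfl | hv
        · exact h1
        · exact hS v hv

/-- the vertices of a path: each is reached from the start inside the path and reaches the end -/
theorem IsPath.rIn_left {l : List W} (h : IsPath D l x y) {v : W} (hv : v ∈ l) :
    RIn D {w | w ∈ l} x v := by
  classical
  obtain ⟨l₁, l₂, rfl⟩ := List.append_of_mem hv
  obtain ⟨hc, -, hh, -⟩ := h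
  have key : ∀ (l₁ : List W) (x : W) (T : Set W), (l₁ ++ v :: l₂).IsChain D →
      (l₁ ++ v :: l₂).head? = some x → (∀ w ∈ l₁ ++ v :: l₂, w ∈ T) → RIn D T x v := by
    intro l₁
    induction l₁ with
    | nil =>
      intro x T hc hh hT
      simp only [List.nil_append, List.head?_cons, Option.some.injEq] at hh
      subst hh
      exact RIn.refl (hT _ (by simp))
    | cons a l₁ ih =>
      intro x T hc hh hT
      simp only [List.cons_append, List.head?_cons, Option.some.injEq] at hh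
      subst hh
      cases hl : l₁ ++ v :: l₂ with
      | nil => simp at hl
      | cons b l =>
        rw [List.cons_append, hl] at hc
        have h2 := List.isChain_cons_cons.1 hc
        rw [← hl] at h2
        have := ih b T h2.2 (by rw [hl]; rfl) (fun w hw => hT w (by
          rw [List.cons_append]; exact List.mem_cons_of_mem _ hw))
        exact RIn.head h2.1 (hT _ (by simp)) this
  exact key l₁ x _ hc hh (fun w hw => hw)

theorem IsPath.mem_left {l : List W} (h : IsPath D l x y) : x ∈ l := by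
  obtain ⟨-, -, hh, -⟩ := h
  exact List.mem_of_head? hh

theorem IsPath.mem_right {l : List W} (h : IsPath D l x y) : y ∈ l := by
  obtain ⟨-, -, -, hh⟩ := h
  exact List.mem_of_getLast? hh

theorem IsPath.rIn {l : List W} (h : IsPath D l x y) : RIn D {w | w ∈ l} x y :=
  h.rIn_left h.mem_right

/-! ## Separators and linkages -/

theorem Sep.mono {X' Y' : Set W} (h : Sep D S X Y) (hS : S ⊆ T) (hX : X' ⊆ X) (hY : Y' ⊆ Y) :
    Sep D T X' Y' := fun x hx y hy hr =>
  h x (hX hx) y (hY hy) (hr.mono_set (Set.compl_subset_compl.2 hS))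

theorem sep_rev : Sep (fun a b => D b a) S Y X ↔ Sep D S X Y :=
  ⟨fun h x hx y hy hr => h y hy x hx hr.rev, fun h y hy x hx hr => h x hx y hy hr.rev⟩

/-- a separator meets every walk -/
theorem Sep.exists_mem (h : Sep D S X Y) (hx : x ∈ X) (hy : y ∈ Y) (hr : RIn D T x y) :
    ∃ z ∈ S, z ∈ T := by
  by_contra hcon
  push Not at hcon
  exact h x hx y hy (hr.mono_set fun v hv hvS => hcon v hvS hv)

theorem Lnk.mono {n m : ℕ} {X' Y' : Set W} (h : Lnk D n X Y) (hmn : m ≤ n) (hX : X ⊆ X')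
    (hY : Y ⊆ Y') : Lnk D m X' Y' := by
  obtain ⟨x, y, S, h1, h2⟩ := h
  exact ⟨fun i => x (Fin.castLE hmn i), fun i => y (Fin.castLE hmn i),
    fun i => S (Fin.castLE hmn i), fun i => ⟨hX (h1 _).1, hY (h1 _).2.1, (h1 _).2.2⟩,
    fun i j hij => h2 _ _ fun he => hij (by
      have := congrArg Fin.val he
      exact Fin.ext this)⟩

theorem lnk_rev {n : ℕ} : Lnk (fun a b => D b a) n Y X ↔ Lnk D n X Y := by
  constructor
  · rintro ⟨x, y, S, h1, h2⟩
    exact ⟨y, x, S, fun i => ⟨(h1 i).2.1, (h1 i).1, (h1 i).2.2.rev⟩, h2⟩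
  · rintro ⟨x, y, S, h1, h2⟩
    exact ⟨y, x, S, fun i => ⟨(h1 i).2.1, (h1 i).1, (h1 i).2.2.rev⟩, h2⟩

/-- weak duality -/
theorem Lnk.le_card {n : ℕ} (h : Lnk D n X Y) {S : Finset W} (hS : Sep D (S : Set W) X Y) :
    n ≤ S.card := by
  classical
  obtain ⟨x, y, T, h1, h2⟩ := h
  have h3 : ∀ i, ∃ z, z ∈ S ∧ z ∈ T i := fun i => by
    obtain ⟨z, hz, hz'⟩ := hS.exists_mem (h1 i).1 (h1 i).2.1 (h1 i).2.2
    exact ⟨z, by simpa using hz, hz'⟩
  choose f hf hf' using h3
  have hinj : Function.Injective f := by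
    intro i j hij
    by_contra hne
    exact Set.disjoint_left.1 (h2 i j hne) (hf' i) (hij ▸ hf' j)
  calc n = (Finset.univ : Finset (Fin n)).card := by simp
    _ = (Finset.univ.image f).card := (Finset.card_image_of_injective _ hinj).symm
    _ ≤ S.card := Finset.card_le_card (by
        intro z hz
        obtain ⟨i, -, rfl⟩ := Finset.mem_image.1 hz
        exact hf i)

theorem Lnk.mono_rel {n : ℕ} (h : Lnk D n X Y) (hD : ∀ u v, D u v → D' u v) : Lnk D' n X Y := by
  obtain ⟨x, y, S, h1, h2⟩ := h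
  exact ⟨x, y, S, fun i => ⟨(h1 i).1, (h1 i).2.1, (h1 i).2.2.mono (fun u v h _ _ => hD u v h)
    subset_rfl⟩, h2⟩

theorem lnk_zero : Lnk D 0 X Y :=
  ⟨Fin.elim0, Fin.elim0, Fin.elim0, fun i => i.elim0, fun i => i.elim0⟩

/-- starting points of a linkage are distinct -/
theorem lnk_inj {n : ℕ} {x y : Fin n → W} {S : Fin n → Set W}
    (h1 : ∀ i, RIn D (S i) (x i) (y i)) (h2 : ∀ i j, i ≠ j → Disjoint (S i) (S j)) :
    Function.Injective x ∧ Function.Injective y := by
  constructor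
  · intro i j hij
    by_contra hne
    exact Set.disjoint_left.1 (h2 i j hne) (h1 i).left_mem (hij ▸ (h1 j).left_mem)
  · intro i j hij
    by_contra hne
    exact Set.disjoint_left.1 (h2 i j hne) (h1 i).right_mem (hij ▸ (h1 j).right_mem)

/-! ## Frames -/

namespace Frame

variable {F : Frame} {m : ℕ → Vx}

theorem adj_left {p q : ℕ} (h : F.adj p q) : p ∈ F.V := (F.adj_wf p q h).1
theorem adj_right {p q : ℕ} (h : F.adj p q) : q ∈ F.V := (F.adj_wf p q h).2.1
theorem adj_isP {p q : ℕ} (h : F.adj p q) : F.isP p := (F.adj_wf p q h).2.2.1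
theorem adj_notP {p q : ℕ} (h : F.adj p q) : ¬ F.isP q := (F.adj_wf p q h).2.2.2
theorem att_E {e v : ℕ} (h : F.att e v) : e ∈ F.E := (F.att_wf e v h).1
theorem att_V {e v : ℕ} (h : F.att e v) : v ∈ F.V := (F.att_wf e v h).2

theorem base_subset : F.base m ⊆ (F.E : Set ℕ) := fun _ h => by
  simpa using h.1

/-- membership in the base of an attached real element -/
theorem mem_base_iff {e v : ℕ} (h : F.att e v) :
    e ∈ F.base m ↔ (F.isP v ↔ m v ≠ Sum.inl e) := by
  constructor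
  · rintro ⟨-, ⟨w, hw, h2⟩ | ⟨h2, -⟩⟩
    · rwa [F.att_uniq e v w h hw]
    · exact absurd h (h2 v)
  · intro h2
    exact ⟨att_E h, Or.inl ⟨v, h, h2⟩⟩

theorem mem_base_iff_of_free {e : ℕ} (he : e ∈ F.E) (h : ∀ v, ¬ F.att e v) :
    e ∈ F.base m ↔ F.co e := by
  constructor
  · rintro ⟨-, ⟨w, hw, h2⟩ | ⟨-, h2⟩⟩
    · exact absurd hw (h w)
    · exact h2
  · intro h2
    exact ⟨he, Or.inr ⟨h, h2⟩⟩

/-- the mate of an internal vertex is internal or real -/
theorem IsPM.cases (hm : F.IsPM m) {v : ℕ} (hv : v ∈ F.V) :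
    (∃ e, m v = Sum.inl e ∧ F.att e v) ∨
      (∃ u, m v = Sum.inr u ∧ u ∈ F.V ∧ m u = Sum.inr v ∧ (F.isP v ↔ ¬ F.isP u) ∧
        (F.adj v u ∨ F.adj u v)) := by
  rcases h : m v with e | u
  · exact Or.inl ⟨e, rfl, (hm v hv).1 e h⟩
  · obtain ⟨h1, h2⟩ := (hm v hv).2 u h
    refine Or.inr ⟨u, rfl, ?_, h2, ?_, h1⟩
    · rcases h1 with h1 | h1
      · exact adj_right h1
      · exact adj_left h1
    · rcases h1 with h1 | h1
      · simp [adj_isP h1, adj_notP h1]
      · simp [adj_isP h1, adj_notP h1]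

/-- the arcs live on the vertices of the frame -/
theorem D_uni {x y : Vx} (h : F.D m x y) : x ∈ F.uni ∧ y ∈ F.uni := by
  rcases x with e | u <;> rcases y with e' | v
  · exact absurd h (by simp [D])
  · exact ⟨Or.inr ⟨e, att_E h.1, rfl⟩, Or.inl ⟨v, att_V h.1, rfl⟩⟩
  · exact ⟨Or.inl ⟨u, att_V h.1, rfl⟩, Or.inr ⟨e', att_E h.1, rfl⟩⟩
  · rcases h with ⟨h, -⟩ | ⟨h, -⟩
    · exact ⟨Or.inl ⟨u, adj_left h, rfl⟩, Or.inl ⟨v, adj_right h, rfl⟩⟩
    · exact ⟨Or.inl ⟨u, adj_right h, rfl⟩, Or.inl ⟨v, adj_left h, rfl⟩⟩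

theorem uni_finite (F : Frame) : F.uni.Finite := by
  have : F.uni = (Sum.inr '' (F.V : Set ℕ)) ∪ (Sum.inl '' (F.E : Set ℕ)) := by
    ext x
    rcases x with e | v <;> simp [uni]
  rw [this]
  exact (F.V.finite_toSet.image _).union (F.E.finite_toSet.image _)

theorem D_G {x y : Vx} (h : F.D m x y) : F.G x y := by
  rcases x with e | u <;> rcases y with e' | v
  · exact absurd h (by simp [D])
  · exact h.1
  · exact h.1
  · rcases h with ⟨h, -⟩ | ⟨h, -⟩
    · exact Or.inl h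
    · exact Or.inr h

theorem G_symm {x y : Vx} (h : F.G x y) : F.G y x := by
  rcases x with e | u <;> rcases y with e' | v
  · exact absurd h (by simp [G])
  · exact h
  · exact h
  · exact h.symm

/-- every edge carries exactly one direction -/
theorem G_D (hm : F.IsPM m) {x y : Vx} (h : F.G x y) : F.D m x y ∨ F.D m y x := by
  rcases x with e | u <;> rcases y with e' | v
  · exact absurd h (by simp [G])
  · by_cases he : e ∈ F.base m
    · exact Or.inr ⟨h, he⟩
    · exact Or.inl ⟨h, he⟩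
  · by_cases he : e' ∈ F.base m
    · exact Or.inl ⟨h, he⟩
    · exact Or.inr ⟨h, he⟩
  · rcases h with h | h
    · by_cases hc : m u = Sum.inr v
      · refine Or.inr (Or.inr ⟨h, ?_⟩)
        exact ((hm u (adj_left h)).2 v hc).2
      · exact Or.inl (Or.inl ⟨h, hc⟩)
    · by_cases hc : m v = Sum.inr u
      · refine Or.inl (Or.inr ⟨h, ?_⟩)
        exact ((hm v (adj_left h)).2 u hc).2
      · exact Or.inr (Or.inl ⟨h, hc⟩)

theorem D_asymm (hm : F.IsPM m) {x y : Vx} (h : F.D m x y) : ¬ F.D m y x := by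
  rcases x with e | u <;> rcases y with e' | v
  · exact absurd h (by simp [D])
  · exact fun h' => h.2 h'.2
  · exact fun h' => h'.2 h.2
  · rintro (⟨h1, h2⟩ | ⟨h1, h2⟩) <;> rcases h with ⟨h3, h4⟩ | ⟨h3, h4⟩
    · exact adj_notP h1 (adj_isP h3)
    · exact h2 ((hm u (adj_right h3)).2 v h4).2
    · exact h4 ((hm v (adj_right h1)).2 u h2).2
    · exact adj_notP h1 (adj_isP h3)

/-- real elements outside the base have no in-arcs -/
theorem no_in_src {e : ℕ} (he : e ∉ F.base m) (x : Vx) : ¬ F.D m x (Sum.inl e) := by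
  rcases x with e' | v
  · simp [D]
  · exact fun h => he h.2

/-- real elements of the base have no out-arcs -/
theorem no_out_snk {e : ℕ} (he : e ∈ F.base m) (x : Vx) : ¬ F.D m (Sum.inl e) x := by
  rcases x with e' | v
  · simp [D]
  · exact fun h => h.2 he

/-- the only in-arc of a vertex of class `P` comes from its mate -/
theorem in_P (hm : F.IsPM m) {v : ℕ} (hv : F.isP v) {x : Vx} (h : F.D m x (Sum.inr v)) :
    x = m v := by
  rcases x with e | u
  · obtain ⟨h1, h2⟩ := h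
    have h3 : ¬ (F.isP v ↔ m v ≠ Sum.inl e) := fun h' => h2 ((mem_base_iff h1).2 h')
    by_contra hne
    exact h3 ⟨fun _ h4 => hne h4.symm, fun _ => hv⟩
  · rcases h with ⟨h1, h2⟩ | ⟨h1, h2⟩
    · exact absurd hv (adj_notP h1)
    · exact ((hm u (adj_right h1)).2 v h2).2.symm

/-- the only out-arc of a vertex of class `Q` goes to its mate -/
theorem out_Q (hm : F.IsPM m) {v : ℕ} (hv : ¬ F.isP v) {x : Vx} (h : F.D m (Sum.inr v) x) :
    x = m v := by
  rcases x with e | u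
  · obtain ⟨h1, h2⟩ := h
    have h3 := (mem_base_iff h1).1 h2
    by_contra hne
    exact hv (h3.2 fun h4 => hne h4.symm)
  · rcases h with ⟨h1, h2⟩ | ⟨h1, h2⟩
    · exact absurd (adj_isP h1) hv
    · exact h2.symm

/-- the arc between a vertex of class `P` and its mate -/
theorem D_mate_P (hm : F.IsPM m) {v : ℕ} (hV : v ∈ F.V) (hv : F.isP v) :
    F.D m (m v) (Sum.inr v) := by
  rcases hm.cases hV with ⟨e, he, h1⟩ | ⟨u, hu, h1, h2, h3, h4⟩
  · rw [he]
    exact ⟨h1, fun h => ((mem_base_iff h1).1 h).1 hv he⟩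
  · rw [hu]
    rcases h4 with h4 | h4
    · exact Or.inr ⟨h4, h2⟩
    · exact absurd hv (adj_notP h4)

theorem D_mate_Q (hm : F.IsPM m) {v : ℕ} (hV : v ∈ F.V) (hv : ¬ F.isP v) :
    F.D m (Sum.inr v) (m v) := by
  rcases hm.cases hV with ⟨e, he, h1⟩ | ⟨u, hu, h1, h2, h3, h4⟩
  · rw [he]
    exact ⟨h1, (mem_base_iff h1).2 ⟨fun h => absurd h hv, fun h => absurd he h⟩⟩
  · rw [hu]
    rcases h4 with h4 | h4
    · exact absurd (adj_isP h4) hv
    · exact Or.inr ⟨h4, hu⟩

/-! ### Duality -/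

@[simp] theorem dual_V : F.dual.V = F.V := rfl
@[simp] theorem dual_E : F.dual.E = F.E := rfl
@[simp] theorem dual_isP {v : ℕ} : F.dual.isP v ↔ ¬ F.isP v := Iff.rfl
@[simp] theorem dual_adj {u v : ℕ} : F.dual.adj u v ↔ F.adj v u := Iff.rfl
@[simp] theorem dual_att {e v : ℕ} : F.dual.att e v ↔ F.att e v := Iff.rfl
@[simp] theorem dual_co {e : ℕ} : F.dual.co e ↔ ¬ F.co e := Iff.rfl

theorem dual_isPM : F.dual.IsPM m ↔ F.IsPM m := by
  constructor
  · intro h v hv
    exact ⟨(h v hv).1, fun u hu => ⟨((h v hv).2 u hu).1.symm, ((h v hv).2 u hu).2⟩⟩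
  · intro h v hv
    exact ⟨(h v hv).1, fun u hu => ⟨((h v hv).2 u hu).1.symm, ((h v hv).2 u hu).2⟩⟩

theorem dual_base : F.dual.base m = (F.E : Set ℕ) \ F.base m := by
  ext e
  by_cases hE : e ∈ F.E
  · by_cases ha : ∃ v, F.att e v
    · obtain ⟨v, hv⟩ := ha
      have h1 := mem_base_iff (F := F.dual) (m := m) (e := e) (v := v) hv
      have h2 := mem_base_iff (F := F) (m := m) (e := e) (v := v) hv
      rw [h1]
      simp only [dual_isP, Set.mem_sdiff, Finset.mem_coe, hE, true_and]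
      rw [h2]
      tauto
    · push Not at ha
      have h1 := mem_base_iff_of_free (F := F.dual) (m := m) (e := e) hE ha
      have h2 := mem_base_iff_of_free (F := F) (m := m) (e := e) hE ha
      rw [h1]
      simp only [dual_co, Set.mem_sdiff, Finset.mem_coe, hE, true_and]
      rw [h2]
  · constructor
    · exact fun h => absurd h.1 hE
    · exact fun h => absurd (by simpa using h.1) hE

theorem dual_D (hm : F.IsPM m) {x y : Vx} : F.dual.D m x y ↔ F.D m y x := by
  have key : ∀ e v, F.att e v → (e ∈ F.dual.base m ↔ e ∉ F.base m) := by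
    intro e v h
    rw [dual_base]
    simp [att_E h]
  rcases x with e | u <;> rcases y with e' | v
  · simp [D]
  · constructor
    · rintro ⟨h1, h2⟩
      exact ⟨h1, by
        by_contra h3
        exact h2 ((key e v h1).2 h3)⟩
    · rintro ⟨h1, h2⟩
      exact ⟨h1, fun h3 => (key e v h1).1 h3 h2⟩
  · constructor
    · rintro ⟨h1, h2⟩
      exact ⟨h1, (key e' u h1).1 h2⟩
    · rintro ⟨h1, h2⟩
      exact ⟨h1, (key e' u h1).2 h2⟩
  · constructor
    · rintro (⟨h1, h2⟩ | ⟨h1, h2⟩)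
      · exact Or.inl ⟨h1, fun h3 => h2 ((hm v (adj_left h1)).2 u h3).2⟩
      · exact Or.inr ⟨h1, ((hm u (adj_left h1)).2 v h2).2⟩
    · rintro (⟨h1, h2⟩ | ⟨h1, h2⟩)
      · exact Or.inl ⟨h1, fun h3 => h2 ((hm u (adj_right h1)).2 v h3).2⟩
      · exact Or.inr ⟨h1, ((hm v (adj_right h1)).2 u h2).2⟩

theorem dual_src : F.dual.src m = F.snk m := by
  ext x
  constructor
  · rintro ⟨e, h1, h2, rfl⟩
    refine ⟨e, ?_, rfl⟩
    rw [dual_base] at h2
    by_contra h3
    exact h2 ⟨by simpa using h1, h3⟩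
  · rintro ⟨e, h1, rfl⟩
    refine ⟨e, by simpa using base_subset h1, ?_, rfl⟩
    rw [dual_base]
    exact fun h2 => h2.2 h1

theorem dual_snk : F.dual.snk m = F.src m := by
  ext x
  constructor
  · rintro ⟨e, h1, rfl⟩
    rw [dual_base] at h1
    exact ⟨e, by simpa using h1.1, h1.2, rfl⟩
  · rintro ⟨e, h1, h2, rfl⟩
    refine ⟨e, ?_, rfl⟩
    rw [dual_base]
    exact ⟨by simpa using h1, h2⟩

theorem dual_inn : F.dual.inn = F.inn := rfl

theorem dual_rIn (hm : F.IsPM m) {S : Set Vx} {x y : Vx} :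
    RIn (F.dual.D m) S x y ↔ RIn (F.D m) S y x := by
  constructor
  · intro h
    exact (h.mono (fun u v h' _ _ => (dual_D hm).1 h') subset_rfl : RIn (fun a b => F.D m b a) S x y).rev
  · intro h
    exact h.rev.mono (fun u v h' _ _ => (dual_D hm).2 h') subset_rfl

theorem dual_sep (hm : F.IsPM m) {S X Y : Set Vx} :
    Sep (F.dual.D m) S X Y ↔ Sep (F.D m) S Y X :=
  ⟨fun h y hy x hx hr => h x hx y hy ((dual_rIn hm).2 hr),
    fun h x hx y hy hr => h y hy x hx ((dual_rIn hm).1 hr)⟩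

theorem dual_lnk (hm : F.IsPM m) {n : ℕ} {X Y : Set Vx} :
    Lnk (F.dual.D m) n X Y ↔ Lnk (F.D m) n Y X := by
  constructor
  · rintro ⟨x, y, S, h1, h2⟩
    exact ⟨y, x, S, fun i => ⟨(h1 i).2.1, (h1 i).1, (dual_rIn hm).1 (h1 i).2.2⟩, h2⟩
  · rintro ⟨x, y, S, h1, h2⟩
    exact ⟨y, x, S, fun i => ⟨(h1 i).2.1, (h1 i).1, (dual_rIn hm).2 (h1 i).2.2⟩, h2⟩

theorem dual_dual_eq : F.dual.dual = F := by
  cases F
  simp [dual]

end Frame

end Pool.Agent.H55.GW
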