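import Pool.Agent.H13.GW.SX
import Pool.Agent.H67.GW.LI
import Pool.Agent.H87.GW.BW
import Pool.Agent.H27.WQ.LO
import Pool.Agent.H62.GW.CC
import Pool.Agent.H59.GW.LIC
import Pool.Agent.H54.GW.KUD
import Pool.Agent.H53.GW.MEN
import Pool.Agent.H37.GW.Fro
import Pool.Agent.H54.GW.GF
import Pool.Agent.H27.WQ.Small
import Pool.Agent.H59.GW.CLO
import Pool.Agent.H54.GW.GMIN
import Pool.Agent.H34.GW.TRC
import Pool.Agent.H74.GW.CMP
import Pool.Agent.H87.GW.REL
import Pool.Agent.H47.GW.R1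
import Pool.Agent.H24.GW2.R0
import Pool.Agent.H39.GW.NCB
import Pool.Agent.H59.GW.FAN
import Pool.Agent.H88.GW.EXC
import Pool.Agent.H24.GW2.R2
import Pool.Agent.H29.GW.DUG
import Pool.Agent.H29.GW.REP
import Pool.Agent.H50.GW.TIT
import Pool.Agent.H29.GW.MDEL
import Pool.Agent.H62.GW.ARC
import Pool.Agent.H88.GW.LB
import Pool.Agent.H75.GW.FUN
import Pool.Agent.H59.GW.RR
import Pool.Agent.H62.GW.BWC
import Pool.Agent.H39.GW.DEG
import Pool.Agent.H67.GW.CMB
import Pool.Agent.H67.GW.BIG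
import Pool.Agent.H62.GW.T1P
import Pool.Agent.H50.GW.LMS
import Pool.Agent.H54.GW.HEAD
import Pool.Agent.H62.GW.STR
import Pool.Agent.H29.GW.LAML
import Pool.Agent.H4.GW.SUBM
import Pool.Agent.H54.GW.LAMU
import Pool.Agent.H34.GW.UTC
import Pool.Agent.H50.GW.EX
import Pool.Agent.H24.GW2.EXP
import Pool.Agent.H37.GW.Kung
import Pool.Agent.H88.GW.LBC
import Pool.Agent.H75.GW.EA
import Pool.Agent.H54.GW.CLI
import Pool.Agent.H59.GW.ISO
import Pool.Agent.H34.GW.DST
import Pool.Agent.H36.GW.GLU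
import Pool.Agent.H54.GW.T1
import Pool.Agent.H54.GW.COF
import Pool.Agent.H29.GW.DUR

/-!
# Assembly of stages 1 and 2
-/

set_option autoImplicit false

namespace Pool.Agent.H55.GW.Asm

open Pool.Agent.H55.GW

theorem men : T_MEN := Pool.Agent.H53.GW.men
theorem subm : T_SUBM := Pool.Agent.H4.GW.subm
theorem ram : T_RAM := Pool.Agent.H4.GW.ram
theorem exc : T_EXC := Pool.Agent.H88.GW.exc
theorem lbc : T_LBC := Pool.Agent.H88.GW.lbc
theorem lb : T_LB := Pool.Agent.H88.GW.lb exc lbc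
theorem rep : T_REP := Pool.Agent.H29.GW.rep lb lbc
theorem dur : T_DUR := Pool.Agent.H29.GW.dur
theorem dug : T_DUG := Pool.Agent.H29.GW.dug
theorem dum : T_DUM := Pool.Agent.H29.GW.dum
theorem lamu : T_LAMU := Pool.Agent.H54.GW.lamu lbc
theorem laml : T_LAML := Pool.Agent.H29.GW.laml lb
theorem mdel : T_MDEL := Pool.Agent.H29.GW.mdel
theorem mcon : T_MCON := Pool.Agent.H29.GW.mcon
theorem gmin : T_GMIN := Pool.Agent.H54.GW.gmin mdel mcon
theorem kung : T_KUNG := Pool.Agent.H37.GW.kung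
theorem kud : T_KUD := Pool.Agent.H54.GW.kud men lb kung
theorem clo : T_CLO := Pool.Agent.H59.GW.CLO.clo men lb
theorem cli : T_CLI := Pool.Agent.H54.GW.cli clo dur dug
theorem fro : T_FRO := Pool.Agent.H37.GW.fro
theorem r0 : T_R0 := Pool.Agent.H24.GW2.r0 rep
theorem r1 : T_R1 := Pool.Agent.H47.GW.r1 rep
theorem r2 : T_R2 := Pool.Agent.H24.GW2.r2 rep
theorem fan : T_FAN := Pool.Agent.H59.GW.FAN.fan r0 r1 r2
theorem cof : T_COF := Pool.Agent.H54.GW.cof fan dum
theorem head : T_HEAD := Pool.Agent.H54.GW.head subm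
theorem ea : T_EA := Pool.Agent.H75.GW.ea men head ram
theorem glu : T_GLU := Pool.Agent.H36.GW.glu
theorem rr : T_RR := Pool.Agent.H59.GW.RR.rr glu
theorem arc : T_ARC := Pool.Agent.H62.GW.arc ea rep
theorem fun' : T_FUN := Pool.Agent.H75.GW.fun_ men kud fan
theorem t1p : T_T1P := Pool.Agent.H62.GW.t1p fun' arc rr
theorem exp : T_EXP := Pool.Agent.H24.GW2.exp
theorem ext : T_EXT := Pool.Agent.H4.GW.ext
theorem t1 : T_T1 := Pool.Agent.H54.GW.t1 t1p exp ext dum dug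
theorem gf : T_GF := Pool.Agent.H54.GW.gf t1 fan cof

theorem mr : T_MR := H27.mr
theorem lo : T_LO := H27.lo men clo
theorem ot : T_OT := Pool.Agent.H87.GW.ot
theorem lic : T_LIC := Pool.Agent.H59.GW.LIC.lic ram exc lo cli
theorem li : T_LI := Pool.Agent.H67.GW.li men ram lo lic
theorem sx : T_SX := Pool.Agent.H13.GW.sx men subm
theorem lms : T_LMS := Pool.Agent.H50.GW.lms
theorem unc : T_UNC := Pool.Agent.H50.GW.unc
theorem tut : T_TUT := H27.tut unc
theorem str : T_STR := Pool.Agent.H62.GW.str exc mdel mcon tut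
theorem utc : T_UTC := Pool.Agent.H34.GW.T_UTC_holds t1 gmin mr lo ot li sx str lamu
theorem cc : T_CC := Pool.Agent.H62.GW.cc men lb laml
theorem utu : T_UTU := H27.utu utc cc
theorem tit : T_TIT := Pool.Agent.H50.GW.tit
theorem ex : T_EX := Pool.Agent.H50.GW.ex tit lms unc
theorem big : T_BIG := Pool.Agent.H67.GW.big men lo
theorem cmb : T_CMB := Pool.Agent.H67.GW.cmb men lo cli
theorem trc : T_TRC := Pool.Agent.H34.GW.T_TRC_holds ot
theorem iso : T_ISO := Pool.Agent.H59.GW.ISO.iso exc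
theorem deg : T_DEG := Pool.Agent.H39.GW.deg big dur dug
theorem cmp : T_CMP := Pool.Agent.H74.GW.cmp lamu
theorem rel : T_REL := Pool.Agent.H87.GW.rel
theorem dst : T_DST := Pool.Agent.H34.GW.T_DST_holds
theorem ncb : T_NCB := Pool.Agent.H39.GW.ncb trc cmb
theorem bwc : T_BWC := Pool.Agent.H62.GW.bwc deg cmp rel dst ncb iso cmb dur dug
theorem bw : T_BW := Pool.Agent.H87.GW.bw gf utc ex bwc lms gmin dur dug

end Pool.Agent.H55.GW.Asm
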