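import Pool.Agent.H55.GW.Targets3

/-!
# FRZ: the final assembly
-/

set_option autoImplicit false

namespace Pool.Agent.H55.GW

theorem frz (hGF : T_GF) (hBW : T_BW) (hFRO : T_FRO) (hBTF : T_BTF) (hLNK : T_LNK)
    (hLMS : T_LMS) (hRC : T_RC) (hKP : T_KP) (hLAB : T_LAB) (hWQS : T_WQS) (hMNR : T_MNR) :
    ∀ q : ℕ, 1 < q → ∀ M : ℕ → Matroid ℕ,
    (∀ i, (M i).Finite ∧
      (∃ N : Matroid ℕ, N.Finite ∧
        (∃ r : ℕ, ∃ A : Fin r → Set ℕ, ∀ I : Set ℕ,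
          N.Indep I ↔ (I ⊆ N.E ∧ ∃ f : ℕ → Fin r, Set.InjOn f I ∧ ∀ x ∈ I, x ∈ A (f x))) ∧
        (M i).E ⊆ N.E ∧ M i = N.dual.restrict (M i).E) ∧
      (¬ ∃ N : Matroid ℕ, N.IsMinor (M i) ∧ N.E.ncard = q + 2 ∧
        ∀ I : Set ℕ, N.Indep I ↔ (I ⊆ N.E ∧ I.ncard ≤ 2)) ∧
      (¬ ∃ N : Matroid ℕ, N.IsMinor (M i) ∧ N.E.ncard = q + 2 ∧
        ∀ I : Set ℕ, N.Indep I ↔ (I ⊆ N.E ∧ I.ncard ≤ q))) →
    ∃ i j : ℕ, i ≠ j ∧ ∃ N : Matroid ℕ, N.IsMinor (M j) ∧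
      ∃ f : ℕ → ℕ, Set.BijOn f (M i).E N.E ∧
        ∀ I : Set ℕ, I ⊆ (M i).E → ((M i).Indep I ↔ N.Indep (f '' I)) := by
  classical
  intro q hq M hM
  by_cases hempty : ∃ i, (M i).E = ∅
  · obtain ⟨i, hi⟩ := hempty
    refine ⟨i, i + 1, by omega, ((M (i + 1)).contract ∅).delete (M (i + 1)).E, ⟨_, _, rfl⟩,
      id, ?_, ?_⟩
    · rw [hi]
      simp
    · intro I hI
      rw [hi] at hI
      have : I = ∅ := Set.subset_empty_iff.1 hI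
      subst this
      simp
  push Not at hempty
  have hne : ∀ i, (M i).E.Nonempty := hempty
  have hG : ∀ i, Gam q (M i) := fun i =>
    ⟨(hM i).1.ground_finite, hFRO _ (hM i).2.1, (hM i).2.2.1, (hM i).2.2.2⟩
  obtain ⟨k, hk⟩ := hBW q hq
  obtain ⟨φ, hφ, hgf⟩ := hGF q hq
  obtain ⟨C, hC⟩ := hRC q hq φ hφ k
  choose N0 hN0 using fun κ => hKP q hq φ hφ κ
  obtain ⟨N, hN⟩ : ∃ N, ∀ κ ≤ k, N0 κ ≤ N :=
    ⟨(Finset.range (k + 1)).sup N0, fun k' hk' =>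
      Finset.le_sup (f := N0) (Finset.mem_range.2 (Nat.lt_succ_of_le hk'))⟩
  have main : ∀ i, ∃ (𝒟 : Set (Set ℕ)) (ρ : Set ℕ → Set ℕ → ℕ) (t : Set ℕ → ℕ),
      (M i).E.Finite ∧ Dec (lam (M i)) k (M i).E 𝒟 ∧ Labd C N (M i) 𝒟 ρ t := by
    intro i
    obtain ⟨F, hRep, hgood⟩ := hgf (M i) (hG i)
    have hGood : Good F φ := fun m hm => ⟨(hgood m hm).1, (hgood m hm).2.1⟩
    have hfin := (hG i).1
    obtain ⟨l1, l2, -⟩ := hLMS (M i) hfin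
    obtain ⟨𝒟₀, hD0⟩ := hBTF _ _ _ (hk (M i) (hG i) (hne i))
    obtain ⟨𝒟, hD, hL⟩ := hLNK _ _ _ _ hfin ⟨l1, l2⟩ hD0
    obtain ⟨ρ, t, h⟩ := hLAB C N k (M i) 𝒟 hfin hD
      (fun D hDD => hC (M i) F (hG i) hRep hGood D (hD.sub D hDD) (hD.le D hDD)) (by
        intro X hX hdec hP
        have hle : lam (M i) (X 0) ≤ k := hD.le _ (hX 0 (Nat.zero_le _)).1
        have hNN := hN _ hle
        have hmono : ∀ a b, a ≤ b → b ≤ N → X b ⊆ X a := by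
          intro a b hab
          induction hab with
          | refl => intro _; exact subset_rfl
          | @step b _ ih => intro hb; exact (hdec b (by omega)).subset.trans (ih (by omega))
        obtain ⟨a, b, hab, hb, htr⟩ := hN0 (lam (M i) (X 0)) (M i) F (hG i) hRep hgood X
          (fun j hj => ⟨hD.sub _ (hX j (by omega)).1, (hX j (by omega)).2⟩)
          (fun j hj => (hdec j (by omega)).subset)
          (fun Z hZ1 hZ2 => hL _ (hX (N0 (lam (M i) (X 0))) hNN).1 _ (hX 0 (Nat.zero_le _)).1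
            (hmono 0 _ (Nat.zero_le _) hNN) _
            (fun P hPD hP1 hP2 => hP P hPD ((hmono _ _ hNN le_rfl).trans hP1) hP2) Z hZ1 hZ2)
        exact ⟨a, b, hab, hb.trans hNN, htr⟩)
    exact ⟨𝒟, ρ, t, hfin, hD, h⟩
  choose 𝒟 ρ t hmain using main
  obtain ⟨i, j, hij, ι, Z, h1, h2, h3, h4, h5⟩ := hWQS C N k M 𝒟 ρ t hmain
  obtain ⟨N', h6, h7, h8⟩ := hMNR (M i) (M j) ι Z (hmain i).1 (hmain j).1 h1 h2 h3 h4 h5
  exact ⟨i, j, hij.ne, N', h6, ι, h7, h8⟩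

end Pool.Agent.H55.GW
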