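import Pool.Agent.H55.GW.Targets3

/-!
# KP: assembly of the transfer theorem
-/

set_option autoImplicit false

namespace Pool.Agent.H55.GW

theorem kp (hCHN : T_CHN) (hZC : T_ZC) (hNEAR : T_NEAR) (hXI : T_XI) (hSEL : T_SEL)
    (hGWB : T_GWB) (hSTC : T_STC) (hCLS : T_CLS) (hTRF : T_TRF) (hSTA : T_STA) : T_KP := by
  classical
  intro q hq φ hφ k
  obtain ⟨K, hK⟩ := hXI q hq φ hφ k
  obtain ⟨R, hR⟩ := hGWB q hq φ hφ (K + 2 * k + k)
  choose T0 hT0 using fun k' => hSTA (K + 2 * k) k' (R + 2 + (K + 2 * k) * (K + 2 * k))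
  obtain ⟨T, hT⟩ : ∃ T, ∀ k' ≤ k, T0 k' ≤ T :=
    ⟨(Finset.range (k + 1)).sup T0, fun k' hk' =>
      Finset.le_sup (f := T0) (Finset.mem_range.2 (Nat.lt_succ_of_le hk'))⟩
  obtain ⟨N, hN⟩ := hSEL k K (φ k) T
  refine ⟨N, fun M F hG hRep hgood X hX hdec hlink => ?_⟩
  obtain ⟨m, O, len, r, hC, hO⟩ := hCHN M F N k X hRep hX hdec hlink
  obtain ⟨pz, hZ⟩ := hZC F m N O k len r hC
  obtain ⟨hEx, hFe, hFan, hCoF⟩ := hgood m hC.pm
  have hnear := hNEAR φ F m N O k len r pz hφ hEx hFe hC hZ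
  obtain ⟨Ξ, hΞ, hXiP⟩ := hK M F m N O len r pz hG hRep hEx hFe hFan hCoF hC hZ
  obtain ⟨c, ix, hc, hcF, hcm, hcT, hck, hcΞ, hix, hixT, hcO⟩ :=
    hN F m O len r pz Ξ hC hZ hnear hXiP hΞ
  subst hcF hcm hcT
  have hGood : Good c.F φ := fun m hm => ⟨(hgood m hm).1, (hgood m hm).2.1⟩
  have hixN : ∀ i ≤ c.T, ix i ≤ ix c.T := by
    intro i hi
    obtain ⟨d, hd⟩ := Nat.exists_eq_add_of_le hi
    have key : ∀ d i, i + d ≤ c.T → ix i ≤ ix (i + d) := by
      intro d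
      induction d with
      | zero => intro i _; exact le_rfl
      | succ d ih =>
        intro i hi
        exact (ih i (by omega)).trans (hix (i + d) (by omega)).le
    rw [hd]
    exact key d i (by omega)
  have hXs : ∀ i ≤ c.T, c.Xs i = X (ix i) := by
    intro i hi
    have h1 : ix i ≤ N := (hixN i hi).trans hixT
    ext e
    constructor
    · rintro ⟨he, h2⟩
      by_contra h3
      rw [hcO i hi] at h2
      exact h2 ((hO _ h1 e he).2 h3)
    · intro he
      have h2 : e ∈ c.F.E := by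
        have := (hX _ h1).1 he
        rw [hRep.1] at this
        simpa using this
      refine ⟨h2, fun h3 => ?_⟩
      rw [hcO i hi] at h3
      exact (hO _ h1 e h2).1 h3 he
  -- the last good window that cannot be broken
  let js : ℕ → ℕ → ℕ := fun ξ η => sSup {j | c.GoodW j ∧ ¬ c.Brk j ξ η}
  let b1 : Set ℕ := {i | i < c.T ∧ ¬ c.GoodW i}
  let b2 : Set ℕ := ((c.Ξ ×ˢ c.Ξ).image fun p => js p.1 p.2 : Finset ℕ)
  have hb1 : b1.Finite := (Set.finite_lt_nat c.T).subset fun i hi => hi.1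
  have hb2 : b2.Finite := Finset.finite_toSet _
  have hfin3 : {i | 1 ≤ i ∧ i + 2 ≤ c.T ∧ ¬ c.GoodW i}.Finite :=
    (Set.finite_lt_nat c.T).subset fun i hi => by
      have := hi.2.1
      simp only [Set.mem_setOf_eq]
      omega
  have hn1 : b1.ncard ≤ R + 2 := by
    have h1 : b1 ⊆ {i | 1 ≤ i ∧ i + 2 ≤ c.T ∧ ¬ c.GoodW i} ∪ {0, c.T - 1} := by
      rintro i ⟨h1, h2⟩
      by_cases h3 : 1 ≤ i ∧ i + 2 ≤ c.T
      · exact Or.inl ⟨h3.1, h3.2, h2⟩
      · right
        simp only [Set.mem_insert_iff, Set.mem_singleton_iff]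
        omega
    refine (Set.ncard_le_ncard h1 (hfin3.union (Set.toFinite _))).trans ?_
    refine (Set.ncard_union_le _ _).trans ?_
    have h2 := hR M c hG hRep hGood hFan hCoF hc (by omega)
    have h3 : ({0, c.T - 1} : Set ℕ).ncard ≤ 2 := Set.ncard_insert_le _ _ |>.trans (by simp)
    omega
  have hn2 : b2.ncard ≤ (K + 2 * k) * (K + 2 * k) := by
    have h1 : b2.ncard = ((c.Ξ ×ˢ c.Ξ).image fun p => js p.1 p.2 : Finset ℕ).card :=
      Set.ncard_coe_finset _
    rw [h1]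
    refine Finset.card_image_le.trans ?_
    rw [Finset.card_product]
    exact Nat.mul_le_mul hcΞ hcΞ
  obtain ⟨i, hi, htr⟩ := hT0 c.k c.T (hT c.k hck) M c.Xs c.Ξ c.St c.Ct (b1 ∪ b2) hcΞ
    (fun i A p hp => hp.1) (fun i hi A hA U hU => hSTC M c hRep hc i hi A hA U hU)
    (fun i hi => fun e he => ⟨he.1, fun h => he.2 (hc.mono i (i + 1) (by omega) (by omega) h)⟩)
    (fun i _ e he => by rw [hRep.1]; exact_mod_cast he.1) (hb1.union hb2)
    ((Set.ncard_union_le _ _).trans (by omega)) (by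
      intro i hi hib
      have hg : c.GoodW i := by
        by_contra h
        exact hib (Or.inl ⟨hi, h⟩)
      refine hTRF c hc i hg fun ξ hξ η hη h1 h2 => ?_
      by_cases hB : c.Brk i ξ η
      · exact Or.inl hB
      right
      have hbdd : BddAbove {j | c.GoodW j ∧ ¬ c.Brk j ξ η} :=
        ⟨c.T, fun j hj => by have := hj.1.2.1; omega⟩
      have hne : {j | c.GoodW j ∧ ¬ c.Brk j ξ η}.Nonempty := ⟨i, hg, hB⟩
      have hle : i ≤ js ξ η := le_csSup hbdd ⟨hg, hB⟩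
      have hmem : c.GoodW (js ξ η) ∧ ¬ c.Brk (js ξ η) ξ η := Nat.sSup_mem hne hbdd
      have hneq : i ≠ js ξ η := by
        intro h
        apply hib
        right
        simp only [b2, Finset.coe_image, Set.mem_image, Finset.mem_coe, Finset.mem_product]
        exact ⟨(ξ, η), ⟨hξ, hη⟩, h.symm⟩
      exact hCLS c hc (js ξ η) hmem.1 ξ hξ η hη h1 h2 hmem.2 (i + 1) (by omega))
  refine ⟨ix i, ix (i + 1), hix i hi, (hixN _ (by omega)).trans hixT, ?_⟩
  rw [← hXs i (by omega), ← hXs (i + 1) (by omega)]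
  exact htr

end Pool.Agent.H55.GW
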