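import Pool.Agent.H55.GW.Targets2

/-!
# Stage 3 targets: rows, linked decompositions, chains of separations, well-quasi-ordering
-/

set_option autoImplicit false

namespace Pool.Agent.H55.GW

/-! ## Block P: partial matchings and rows -/

/-- the sets outside `X` completing `A` to a base -/
def row (M : Matroid ℕ) (X A : Set ℕ) : Set (Set ℕ) := {U | U ⊆ M.E \ X ∧ M.IsBase (A ∪ U)}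

/-- number of rows -/
noncomputable def rowc (M : Matroid ℕ) (X : Set ℕ) : ℕ := (row M X '' {A | A ⊆ X}).ncard

/-- an injective transfer from `Y` to `X` -/
def Trf (M : Matroid ℕ) (Y X : Set ℕ) : Prop := ∃ C ⊆ X \ Y, ∀ A ⊆ Y, ∀ A' ⊆ Y,
  row M X (A ∪ C) = row M X (A' ∪ C) → row M Y A = row M Y A'

/-- `m` matches every vertex of `J` along an edge in `ed`, to a vertex of `J` or to a real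
element -/
def PMat (F : Frame) (ed : Vx → Vx → Prop) (J : Set ℕ) (m : ℕ → Vx) : Prop :=
  ∀ v ∈ J, v ∈ F.V ∧
    ((∃ e, m v = Sum.inl e ∧ F.att e v ∧ ed (Sum.inl e) (Sum.inr v)) ∨
      ∃ u ∈ J, m v = Sum.inr u ∧ m u = Sum.inr v ∧ F.G (Sum.inr u) (Sum.inr v) ∧
        ed (Sum.inr u) (Sum.inr v))

/-- the real element `e` belongs to the base of the partial matching `m` of `J` -/
def Bs (F : Frame) (J : Set ℕ) (m : ℕ → Vx) (e : ℕ) : Prop :=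
  (∃ v, F.att e v ∧ (F.isP v ↔ ¬ (v ∈ J ∧ m v = Sum.inl e))) ∨ ((∀ v, ¬ F.att e v) ∧ F.co e)

/-- `J` can be matched along `ed` such that the base is `A` on `X` -/
def Cv (F : Frame) (ed : Vx → Vx → Prop) (X A J : Set ℕ) : Prop :=
  A ⊆ X ∧ ∃ m, PMat F ed J m ∧ ∀ e ∈ X, (e ∈ A ↔ Bs F J m e)

/-- FPM: perfect matchings are the partial matchings of everything -/
def T_FPM : Prop := ∀ (F : Frame) (B : Set ℕ),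
  Cv F (fun _ _ => True) (F.E : Set ℕ) B (F.V : Set ℕ) ↔ ∃ m, F.IsPM m ∧ F.base m = B

/-- SPL: splitting a partial matching along a partition of the edges -/
def T_SPL : Prop := ∀ (F : Frame) (ed ed₁ ed₂ : Vx → Vx → Prop) (X₁ X₂ A₁ A₂ J : Set ℕ),
  (∀ x y, ed₁ x y → ed₁ y x) → (∀ x y, ed₂ x y → ed₂ y x) →
  (∀ x y, ed x y ↔ (ed₁ x y ∨ ed₂ x y)) → (∀ x y, ¬ (ed₁ x y ∧ ed₂ x y)) → Disjoint X₁ X₂ →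
  (∀ e v, F.att e v → ((ed₁ (Sum.inl e) (Sum.inr v) ↔ e ∈ X₁) ∧
    (ed₂ (Sum.inl e) (Sum.inr v) ↔ e ∈ X₂))) → A₁ ⊆ X₁ → A₂ ⊆ X₂ →
  (Cv F ed (X₁ ∪ X₂) (A₁ ∪ A₂) J ↔ ∃ J₁ ⊆ J, Cv F ed₁ X₁ A₁ J₁ ∧ Cv F ed₂ X₂ A₂ (J \ J₁))

/-- BAL: partial matchings with the same leaf usage are balanced -/
def T_BAL : Prop := ∀ (F : Frame) (ed ed' : Vx → Vx → Prop) (J J' : Set ℕ) (m m' : ℕ → Vx),
  PMat F ed J m → PMat F ed' J' m' →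
  (∀ e v, F.att e v → ((v ∈ J ∧ m v = Sum.inl e) ↔ (v ∈ J' ∧ m' v = Sum.inl e))) →
  {v | v ∈ J ∧ F.isP v}.ncard + {v | v ∈ J' ∧ ¬ F.isP v}.ncard =
    {v | v ∈ J' ∧ F.isP v}.ncard + {v | v ∈ J ∧ ¬ F.isP v}.ncard

/-- RC: boundedly many rows -/
def T_RC : Prop := ∀ q : ℕ, 1 < q → ∀ φ : ℕ → ℕ, Monotone φ → ∀ t : ℕ, ∃ C : ℕ,
  ∀ (M : Matroid ℕ) (F : Frame), Gam q M → F.Rep M → Good F φ → ∀ X ⊆ M.E, lam M X ≤ t →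
  rowc M X ≤ C

/-! ## Block L: linked laminar decompositions -/

/-- symmetric and submodular -/
def SymSub (E : Set ℕ) (f : Set ℕ → ℕ) : Prop := (∀ X ⊆ E, f (E \ X) = f X) ∧
  ∀ X ⊆ E, ∀ Y ⊆ E, f (X ∪ Y) + f (X ∩ Y) ≤ f X + f Y

/-- a binary laminar decomposition of width at most `k` -/
structure Dec (f : Set ℕ → ℕ) (k : ℕ) (E : Set ℕ) (𝒟 : Set (Set ℕ)) : Prop where
  top : E ∈ 𝒟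
  ne : ∀ D ∈ 𝒟, D.Nonempty
  sub : ∀ D ∈ 𝒟, D ⊆ E
  lam : ∀ D ∈ 𝒟, ∀ D' ∈ 𝒟, D ⊆ D' ∨ D' ⊆ D ∨ Disjoint D D'
  split : ∀ D ∈ 𝒟, (∃ e, D = {e}) ∨ ∃ D₁ ∈ 𝒟, ∃ D₂ ∈ 𝒟, Disjoint D₁ D₂ ∧ D₁ ∪ D₂ = D
  le : ∀ D ∈ 𝒟, f D ≤ k

/-- BTF: from trees to laminar decompositions -/
def T_BTF : Prop := ∀ (f : Set ℕ → ℕ) (k : ℕ) (E : Set ℕ), Brd f k E → ∃ 𝒟, Dec f k E 𝒟

/-- linked decompositions -/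
def Lkd (f : Set ℕ → ℕ) (𝒟 : Set (Set ℕ)) : Prop := ∀ R ∈ 𝒟, ∀ S ∈ 𝒟, R ⊆ S → ∀ ℓ : ℕ,
  (∀ P ∈ 𝒟, R ⊆ P → P ⊆ S → ℓ ≤ f P) → ∀ Z, R ⊆ Z → Z ⊆ S → ℓ ≤ f Z

/-- an unlinked pair `R ⊆ S` with a minimum set `A` splitting few members -/
def Opt (f : Set ℕ → ℕ) (𝒟 : Set (Set ℕ)) (R S A : Set ℕ) : Prop :=
  R ∈ 𝒟 ∧ S ∈ 𝒟 ∧ R ⊆ A ∧ A ⊆ S ∧ (∀ Z, R ⊆ Z → Z ⊆ S → f A ≤ f Z) ∧
    (∀ P ∈ 𝒟, R ⊆ P → P ⊆ S → f A < f P) ∧ ∀ D ∈ 𝒟, D ⊆ S → Disjoint D R →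
      (D ∩ A).Nonempty → (D \ A).Nonempty → f A < f (A ∪ D) ∧ f A < f (A \ D)

/-- CHO: existence of `Opt` -/
def T_CHO : Prop := ∀ (f : Set ℕ → ℕ) (k : ℕ) (E : Set ℕ) (𝒟 : Set (Set ℕ)), E.Finite →
  Dec f k E 𝒟 → ¬ Lkd f 𝒟 → ∃ R S A, Opt f 𝒟 R S A

/-- the improved decomposition -/
def impD (𝒟 : Set (Set ℕ)) (R S A : Set ℕ) : Set (Set ℕ) :=
  {D | D ∈ 𝒟 ∧ ¬ D ⊆ S} ∪ {D' | D'.Nonempty ∧ ∃ D ∈ 𝒟, D ⊆ S ∧ D' = D ∩ A} ∪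
    {D' | D'.Nonempty ∧ ∃ D ∈ 𝒟, D ⊆ S ∧ Disjoint D R ∧ D' = D \ A} ∪
    {D' | ∃ D ∈ 𝒟, R ⊆ D ∧ D ⊆ S ∧ D' = D ∪ A}

/-- IMA: the improved decomposition is a decomposition -/
def T_IMA : Prop := ∀ (f : Set ℕ → ℕ) (k : ℕ) (E : Set ℕ) (𝒟 : Set (Set ℕ)) (R S A : Set ℕ),
  E.Finite → SymSub E f → Dec f k E 𝒟 → Opt f 𝒟 R S A → Dec f k E (impD 𝒟 R S A)

/-- number of comparable pairs without a member of small value in between -/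
noncomputable def pif (f : Set ℕ → ℕ) (x : ℕ) (𝒟 : Set (Set ℕ)) : ℕ :=
  {p : Set ℕ × Set ℕ | p.1 ∈ 𝒟 ∧ p.2 ∈ 𝒟 ∧ p.1 ⊆ p.2 ∧
    ∀ T ∈ 𝒟, p.1 ⊆ T → T ⊆ p.2 → x ≤ f T}.ncard

/-- IMB: the improved decomposition is better -/
def T_IMB : Prop := ∀ (f : Set ℕ → ℕ) (k : ℕ) (E : Set ℕ) (𝒟 : Set (Set ℕ)) (R S A : Set ℕ),
  E.Finite → SymSub E f → Dec f k E 𝒟 → Opt f 𝒟 R S A →
  ∃ x, (∀ y, x < y → pif f y (impD 𝒟 R S A) ≤ pif f y 𝒟) ∧ pif f x (impD 𝒟 R S A) < pif f x 𝒟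

/-- LNK: existence of linked decompositions -/
def T_LNK : Prop := ∀ (f : Set ℕ → ℕ) (k : ℕ) (E : Set ℕ) (𝒟 : Set (Set ℕ)), E.Finite →
  SymSub E f → Dec f k E 𝒟 → ∃ 𝒟', Dec f k E 𝒟' ∧ Lkd f 𝒟'

/-! ## Block R: the lemma on trees -/

/-- `f` is a proper descendant of `e` and all nodes strictly in between have label `> k` -/
inductive Desc {N : Type} (leaf : N → Prop) (ch : Bool → N → N) (lab : N → ℕ) (k : ℕ) :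
    N → N → Prop
  | one (e : N) (b : Bool) : ¬ leaf e → Desc leaf ch lab k e (ch b e)
  | more (e f : N) (b : Bool) : Desc leaf ch lab k e f → ¬ leaf f → k < lab f →
      Desc leaf ch lab k e (ch b f)

/-- RS: the lemma on trees -/
def T_RS : Prop := ∀ (N K : Type), Finite K → ∀ (L : ℕ) (leaf : N → Prop) (ch : Bool → N → N)
  (sz lab : N → ℕ) (kd : N → K) (le : N → N → Prop), (∀ e, le e e) →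
  (∀ e f g, le e f → le f g → le e g) → (∀ e, lab e < L) →
  (∀ e b, ¬ leaf e → sz (ch b e) < sz e) → (∀ e f, leaf e → leaf f → kd e = kd f → le e f) →
  (∀ e f, ¬ leaf e → ¬ leaf f → kd e = kd f → (∀ b, le (ch b e) (ch b f)) → le e f) →
  (∀ e f, Desc leaf ch lab (lab e) e f → lab f = lab e → le f e) →
  ∀ s : ℕ → N, ∃ i j, i < j ∧ le (s i) (s j)

/-- the code of the pair (connectivity, t) -/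
noncomputable def lbl (N : ℕ) (M : Matroid ℕ) (t : Set ℕ → ℕ) (D : Set ℕ) : ℕ :=
  lam M D * (N + 1) + t D

/-- a decomposition with numbered rows and transfers between equal labels -/
def Labd (C N : ℕ) (M : Matroid ℕ) (𝒟 : Set (Set ℕ)) (ρ : Set ℕ → Set ℕ → ℕ)
    (t : Set ℕ → ℕ) : Prop :=
  (∀ D ∈ 𝒟, t D ≤ N) ∧ (∀ D ∈ 𝒟, ∀ A ⊆ D, ρ D A ≤ C) ∧
    (∀ D ∈ 𝒟, ∀ A ⊆ D, ∀ A' ⊆ D, (ρ D A = ρ D A' ↔ row M D A = row M D A')) ∧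
    ∀ D' ∈ 𝒟, ∀ D ∈ 𝒟, D' ⊂ D → lbl N M t D' = lbl N M t D →
      (∀ P ∈ 𝒟, D' ⊂ P → P ⊂ D → lbl N M t D < lbl N M t P) →
      ∃ Z ⊆ D \ D', ∀ A ⊆ D', ρ D (A ∪ Z) = ρ D' A

/-- LAB: labelling a decomposition -/
def T_LAB : Prop := ∀ (C N k : ℕ) (M : Matroid ℕ) (𝒟 : Set (Set ℕ)), M.E.Finite →
  Dec (lam M) k M.E 𝒟 → (∀ D ∈ 𝒟, rowc M D ≤ C) →
  (∀ X : ℕ → Set ℕ, (∀ i ≤ N, X i ∈ 𝒟 ∧ lam M (X i) = lam M (X 0)) →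
    (∀ i < N, X (i + 1) ⊂ X i) → (∀ P ∈ 𝒟, X N ⊆ P → P ⊆ X 0 → lam M (X 0) ≤ lam M P) →
    ∃ i j, i < j ∧ j ≤ N ∧ Trf M (X j) (X i)) →
  ∃ (ρ : Set ℕ → Set ℕ → ℕ) (t : Set ℕ → ℕ), Labd C N M 𝒟 ρ t

/-- WQS: sequences of labelled decompositions are good -/
def T_WQS : Prop := ∀ (C N k : ℕ) (M : ℕ → Matroid ℕ) (𝒟 : ℕ → Set (Set ℕ))
  (ρ : ℕ → Set ℕ → Set ℕ → ℕ) (t : ℕ → Set ℕ → ℕ), (∀ i, (M i).E.Finite ∧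
    Dec (lam (M i)) k (M i).E (𝒟 i) ∧ Labd C N (M i) (𝒟 i) (ρ i) (t i)) →
  ∃ i j, i < j ∧ ∃ (ι : ℕ → ℕ) (Z : Set ℕ), Set.InjOn ι (M i).E ∧ ι '' (M i).E ⊆ (M j).E ∧
    Z ⊆ (M j).E ∧ Disjoint (ι '' (M i).E) Z ∧
    ∀ A ⊆ (M i).E, ((M i).IsBase A ↔ (M j).IsBase (ι '' A ∪ Z))

/-- MNR: from bases to minors -/
def T_MNR : Prop := ∀ (M M' : Matroid ℕ) (ι : ℕ → ℕ) (Z : Set ℕ), M.E.Finite → M'.E.Finite →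
  Set.InjOn ι M.E → ι '' M.E ⊆ M'.E → Z ⊆ M'.E → Disjoint (ι '' M.E) Z →
  (∀ A ⊆ M.E, (M.IsBase A ↔ M'.IsBase (ι '' A ∪ Z))) →
  ∃ N : Matroid ℕ, N.IsMinor M' ∧ Set.BijOn ι M.E N.E ∧
    ∀ I : Set ℕ, I ⊆ M.E → (M.Indep I ↔ N.Indep (ι '' I))

/-! ## Block Z: chains of separations and their cuts -/

/-- TLA: Tutte's linking lemma -/
def T_TLA : Prop := ∀ (M : Matroid ℕ) (P₁ P₂ : Set ℕ) (k : ℕ), M.E.Finite → P₁ ⊆ M.E →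
  P₂ ⊆ M.E → Disjoint P₁ P₂ → (∀ Z ⊆ M.E, P₁ ⊆ Z → Disjoint P₂ Z → k ≤ lam M Z) →
  ∃ C ⊆ M.E \ (P₁ ∪ P₂), k ≤ lam ((M.contract C).restrict (P₁ ∪ P₂)) P₁

/-- TL: a base adapted to a chain of separations -/
def T_TL : Prop := ∀ (M : Matroid ℕ) (N k : ℕ) (X : ℕ → Set ℕ), M.E.Finite →
  (∀ i ≤ N, X i ⊆ M.E ∧ lam M (X i) = k) → (∀ i < N, X (i + 1) ⊆ X i) →
  (∀ Z, X N ⊆ Z → Z ⊆ X 0 → k ≤ lam M Z) →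
  ∃ B I J : Set ℕ, M.IsBase B ∧ I ⊆ M.E \ X 0 ∧ Disjoint I B ∧ J ⊆ B ∩ X N ∧ I.ncard = k ∧
    J.ncard = k ∧ M.IsBase ((B \ J) ∪ I) ∧
    ∀ i ≤ N, ∀ a ∈ X i, a ∉ B → ∀ b ∈ B, b ∉ X i → ¬ M.IsBase (insert a (B \ {b}))

/-- `k` disjoint directed paths `r c 0, …, r c (len c)` from `A` to `B` -/
structure Rails (D : Vx → Vx → Prop) (k : ℕ) (len : Fin k → ℕ) (r : Fin k → ℕ → Vx)
    (A B : Set Vx) : Prop where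
  start : ∀ c, r c 0 ∈ A
  fin : ∀ c, r c (len c) ∈ B
  arc : ∀ c, ∀ p < len c, D (r c p) (r c (p + 1))
  inj : ∀ c p c' p', p ≤ len c → p' ≤ len c' → r c p = r c' p' → c = c' ∧ p = p'

/-- RLS: rails from a linkage -/
def T_RLS : Prop := ∀ (D : Vx → Vx → Prop) (k : ℕ) (A B : Set Vx), Lnk D k A B →
  ∃ (len : Fin k → ℕ) (r : Fin k → ℕ → Vx), Rails D k len r A B

/-- a chain of levels `O 0 ⊆ … ⊆ O N` in the directed graph of a matching, with `k` rails -/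
structure Chn (F : Frame) (m : ℕ → Vx) (N : ℕ) (O : ℕ → Set Vx) (k : ℕ) (len : Fin k → ℕ)
    (r : Fin k → ℕ → Vx) : Prop where
  pm : F.IsPM m
  sub : ∀ i ≤ N, O i ⊆ F.uni
  mono : ∀ i j, i ≤ j → j ≤ N → O i ⊆ O j
  inc : ∀ i ≤ N, ∀ x y, F.D m x y → y ∈ O i → x ∈ O i
  hub : ∀ i ≤ N, ∀ v ∈ F.V, (Sum.inr v ∈ O i ↔ m v ∈ O i)
  rails : Rails (F.D m) k len r (F.src m ∩ O 0) (F.snk m \ O N)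
  flow : ∀ i ≤ N, ¬ Lnk (F.D m) (k + 1) (F.src m ∩ O i) (F.snk m \ O i)

/-- CHN: a linked chain of separations of order `k` gives a chain of levels -/
def T_CHN : Prop := ∀ (M : Matroid ℕ) (F : Frame) (N k : ℕ) (X : ℕ → Set ℕ), F.Rep M →
  (∀ i ≤ N, X i ⊆ M.E ∧ lam M (X i) = k) → (∀ i < N, X (i + 1) ⊆ X i) →
  (∀ Z, X N ⊆ Z → Z ⊆ X 0 → k ≤ lam M Z) →
  ∃ (m : ℕ → Vx) (O : ℕ → Set Vx) (len : Fin k → ℕ) (r : Fin k → ℕ → Vx),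
    Chn F m N O k len r ∧ ∀ i ≤ N, ∀ e ∈ F.E, (Sum.inl e ∈ O i ↔ e ∉ X i)

/-- the vertices at positions `p` of the rails -/
def Zs {k : ℕ} (r : Fin k → ℕ → Vx) (p : Fin k → ℕ) : Set Vx := {x | ∃ c, x = r c (p c)}

/-- ZCM: minima of cuts are cuts -/
def T_ZCM : Prop := ∀ (F : Frame) (m : ℕ → Vx) (N : ℕ) (O : ℕ → Set Vx) (k : ℕ)
  (len : Fin k → ℕ) (r : Fin k → ℕ → Vx), Chn F m N O k len r → ∀ i j, i ≤ j → j ≤ N →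
  ∀ p p' : Fin k → ℕ, (∀ c, 1 ≤ p c ∧ p c < len c) → (∀ c, 1 ≤ p' c ∧ p' c < len c) →
  Sep (F.D m) (Zs r p) (F.src m ∩ O i) (F.snk m \ O i) →
  Sep (F.D m) (Zs r p') (F.src m ∩ O j) (F.snk m \ O j) →
  Sep (F.D m) (Zs r fun c => min (p c) (p' c)) (F.src m ∩ O i) (F.snk m \ O i)

/-- ZCE: existence of cuts -/
def T_ZCE : Prop := ∀ (F : Frame) (m : ℕ → Vx) (N : ℕ) (O : ℕ → Set Vx) (k : ℕ)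
  (len : Fin k → ℕ) (r : Fin k → ℕ → Vx), Chn F m N O k len r → ∀ i ≤ N,
  ∃ p : Fin k → ℕ, (∀ c, 1 ≤ p c ∧ p c < len c) ∧
    Sep (F.D m) (Zs r p) (F.src m ∩ O i) (F.snk m \ O i)

/-- cuts of the levels at positions `pz i` -/
structure Zc (F : Frame) (m : ℕ → Vx) (N : ℕ) (O : ℕ → Set Vx) (k : ℕ) (len : Fin k → ℕ)
    (r : Fin k → ℕ → Vx) (pz : ℕ → Fin k → ℕ) : Prop where
  rng : ∀ i ≤ N, ∀ c, 1 ≤ pz i c ∧ pz i c < len c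
  mono : ∀ i j, i ≤ j → j ≤ N → ∀ c, pz i c ≤ pz j c
  sep : ∀ i ≤ N, Sep (F.D m) (Zs r (pz i)) (F.src m ∩ O i) (F.snk m \ O i)
  cls : ∀ i ≤ N, ∀ c v, r c (pz i c) = Sum.inr v → F.isP v → pz i c = 1

/-- ZC: monotone cuts -/
def T_ZC : Prop := ∀ (F : Frame) (m : ℕ → Vx) (N : ℕ) (O : ℕ → Set Vx) (k : ℕ)
  (len : Fin k → ℕ) (r : Fin k → ℕ → Vx), Chn F m N O k len r → ∃ pz, Zc F m N O k len r pz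

/-- NEAR: the cut vertices are close to the boundary of the level -/
def T_NEAR : Prop := ∀ (φ : ℕ → ℕ) (F : Frame) (m : ℕ → Vx) (N : ℕ) (O : ℕ → Set Vx) (k : ℕ)
  (len : Fin k → ℕ) (r : Fin k → ℕ → Vx) (pz : ℕ → Fin k → ℕ), Monotone φ → F.Exits m φ →
  F.Feeds m φ → Chn F m N O k len r → Zc F m N O k len r pz →
  ∀ i ≤ N, ∀ c, ∀ p ≤ len c, (r c p ∈ O i → p ≤ pz i c + φ k) ∧
    (r c p ∉ O i → pz i c ≤ p + φ k)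

/-- SUN: the sunflower lemma for indexed families -/
def T_SUN : Prop := ∀ r p : ℕ, ∃ N : ℕ, ∀ f : Fin N → Finset Vx, (∀ t, (f t).card ≤ r) →
  ∃ (g : Fin p → Fin N) (Y : Finset Vx), Function.Injective g ∧
    ∀ t t', t ≠ t' → ∀ x, (x ∈ f (g t) ∧ x ∈ f (g t')) ↔ x ∈ Y

/-- XU: few vertices of class `Q` are cut off from the sources by monotone cuts -/
def T_XU : Prop := ∀ q : ℕ, 1 < q → ∀ φ : ℕ → ℕ, Monotone φ → ∀ k : ℕ, ∃ K : ℕ,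
  ∀ (M : Matroid ℕ) (F : Frame) (m : ℕ → Vx), Gam q M → F.Rep M → F.IsPM m → F.Exits m φ →
  F.Feeds m φ → F.CoFan m → ∀ (len : Fin k → ℕ) (r : Fin k → ℕ → Vx),
  Rails (F.D m) k len r (F.src m) (F.snk m) → ∀ (N : ℕ) (pz : ℕ → Fin k → ℕ),
  (∀ i ≤ N, ∀ c, 1 ≤ pz i c ∧ pz i c < len c) →
  (∀ i j, i ≤ j → j ≤ N → ∀ c, pz i c ≤ pz j c) →
  ∀ X : Finset ℕ, (∀ v ∈ X, v ∈ F.V ∧ ¬ F.isP v ∧ ∃ i ≤ N, Sum.inr v ∉ Zs r (pz i) ∧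
    Sep (F.D m) (Zs r (pz i)) (F.src m) {Sum.inr v}) → X.card ≤ K

/-- XW: few vertices of class `P` are cut off from the sinks by monotone cuts -/
def T_XW : Prop := ∀ q : ℕ, 1 < q → ∀ φ : ℕ → ℕ, Monotone φ → ∀ k : ℕ, ∃ K : ℕ,
  ∀ (M : Matroid ℕ) (F : Frame) (m : ℕ → Vx), Gam q M → F.Rep M → F.IsPM m → F.Exits m φ →
  F.Feeds m φ → F.Fan m → ∀ (len : Fin k → ℕ) (r : Fin k → ℕ → Vx),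
  Rails (F.D m) k len r (F.src m) (F.snk m) → ∀ (N : ℕ) (pz : ℕ → Fin k → ℕ),
  (∀ i ≤ N, ∀ c, 1 ≤ pz i c ∧ pz i c < len c) →
  (∀ i j, i ≤ j → j ≤ N → ∀ c, pz i c ≤ pz j c) →
  ∀ X : Finset ℕ, (∀ v ∈ X, v ∈ F.V ∧ F.isP v ∧ ∃ i ≤ N, Sum.inr v ∉ Zs r (pz i) ∧
    Sep (F.D m) (Zs r (pz i)) {Sum.inr v} (F.snk m)) → X.card ≤ K

/-- a set of internal vertices controlling all levels of the chain -/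
structure XiP (F : Frame) (m : ℕ → Vx) (N : ℕ) (O : ℕ → Set Vx) (k : ℕ)
    (r : Fin k → ℕ → Vx) (pz : ℕ → Fin k → ℕ) (Ξ : Finset ℕ) : Prop where
  V : ∀ v ∈ Ξ, v ∈ F.V
  u : ∀ i ≤ N, ∀ v ∈ F.V, ¬ F.isP v → Sum.inr v ∉ Zs r (pz i) →
    Sep (F.D m) (Zs r (pz i)) (F.src m) {Sum.inr v} → v ∈ Ξ
  w : ∀ i ≤ N, ∀ v ∈ F.V, F.isP v → Sum.inr v ∉ Zs r (pz i) →
    Sep (F.D m) (Zs r (pz i)) {Sum.inr v} (F.snk m) → v ∈ Ξ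
  cover : ∀ i ≤ N, ∀ x y, F.D m x y → x ∈ O i → y ∉ O i →
    (∃ ξ ∈ Ξ, x = Sum.inr ξ ∨ y = Sum.inr ξ) ∨
      ∃ c v, r c (pz i c) = Sum.inr v ∧ ¬ F.isP v ∧ (x = m v ∨ y = Sum.inr v)

/-- XI: existence of a bounded controlling set -/
def T_XI : Prop := ∀ q : ℕ, 1 < q → ∀ φ : ℕ → ℕ, Monotone φ → ∀ k : ℕ, ∃ K : ℕ,
  ∀ (M : Matroid ℕ) (F : Frame) (m : ℕ → Vx) (N : ℕ) (O : ℕ → Set Vx) (len : Fin k → ℕ)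
  (r : Fin k → ℕ → Vx) (pz : ℕ → Fin k → ℕ), Gam q M → F.Rep M → F.Exits m φ → F.Feeds m φ →
  F.Fan m → F.CoFan m → Chn F m N O k len r → Zc F m N O k len r pz →
  ∃ Ξ : Finset ℕ, Ξ.card ≤ K ∧ XiP F m N O k r pz Ξ

/-- SQ: selecting levels -/
def T_SQ : Prop := ∀ k L g : ℕ, ∃ N : ℕ, ∀ f : Fin k → ℕ → ℕ,
  (∀ c i j, i ≤ j → j ≤ N → f c i ≤ f c j) →
  ∃ (ix : ℕ → ℕ) (mv : Set (Fin k)), (∀ j < L, ix j < ix (j + 1)) ∧ ix L ≤ N ∧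
    (∀ c ∈ mv, ∀ j < L, f c (ix j) + g ≤ f c (ix (j + 1))) ∧
    ∀ c ∉ mv, f c (ix 0) = f c (ix L)

/-! ## Contexts -/

/-- data of a chain of levels `O 0, …, O T` with boundary vertices `Ξ` and `s i a` -/
structure Ctx where
  F : Frame
  m : ℕ → Vx
  T : ℕ
  O : ℕ → Set Vx
  Ξ : Finset ℕ
  k : ℕ
  ty : Fin k → Bool
  s : ℕ → Fin k → ℕ
  Tr : Fin k → Set Vx

namespace Ctx

/-- the properties of a context -/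
structure Ok (c : Ctx) : Prop where
  pm : c.F.IsPM c.m
  sub : ∀ i ≤ c.T, c.O i ⊆ c.F.uni
  mono : ∀ i j, i ≤ j → j ≤ c.T → c.O i ⊆ c.O j
  inc : ∀ i ≤ c.T, ∀ x y, c.F.D c.m x y → y ∈ c.O i → x ∈ c.O i
  hub : ∀ i ≤ c.T, ∀ v ∈ c.F.V, (Sum.inr v ∈ c.O i ↔ c.m v ∈ c.O i)
  xiV : ∀ ξ ∈ c.Ξ, ξ ∈ c.F.V ∧ (Sum.inr ξ ∈ c.O 0 ∨ Sum.inr ξ ∉ c.O c.T)
  sV : ∀ i ≤ c.T, ∀ a, c.s i a ∈ c.F.V ∧ c.s i a ∉ c.Ξ ∧ Sum.inr (c.s i a) ∈ c.Tr a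
  sO : ∀ i ≤ c.T, ∀ a, c.ty a = true → c.F.isP (c.s i a) ∧ Sum.inr (c.s i a) ∈ c.O i ∧
    ∀ j < i, Sum.inr (c.s i a) ∉ c.O j
  sI : ∀ i ≤ c.T, ∀ a, c.ty a = false → ¬ c.F.isP (c.s i a) ∧ Sum.inr (c.s i a) ∉ c.O i ∧
    ∀ j, i < j → j ≤ c.T → Sum.inr (c.s i a) ∈ c.O j
  cover : ∀ i ≤ c.T, ∀ x y, c.F.D c.m x y → x ∈ c.O i → y ∉ c.O i →
    (∃ ξ ∈ c.Ξ, x = Sum.inr ξ ∨ y = Sum.inr ξ) ∨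
      ∃ a, (c.ty a = true ∧ x = Sum.inr (c.s i a)) ∨ (c.ty a = false ∧ y = Sum.inr (c.s i a))
  seg : ∀ i < c.T, ∀ a, RIn (c.F.D c.m) {x | x ∈ c.Tr a ∧ ((x ∈ c.O (i + 1) ∧ x ∉ c.O i) ∨
    x = Sum.inr (c.s i a) ∨ x = Sum.inr (c.s (i + 1) a))} (Sum.inr (c.s i a))
    (Sum.inr (c.s (i + 1) a))
  tr : ∀ a, ∃ x ∈ c.F.src c.m ∩ c.O 0, ∃ y ∈ c.F.snk c.m \ c.O c.T, ∀ z ∈ c.Tr a,
    RIn (c.F.D c.m) (c.Tr a) x z ∧ RIn (c.F.D c.m) (c.Tr a) z y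
  dTr : ∀ a b, a ≠ b → Disjoint (c.Tr a) (c.Tr b)

/-- the dual context -/
def dual (c : Ctx) : Ctx where
  F := c.F.dual
  m := c.m
  T := c.T
  O := fun i => c.F.uni \ c.O (c.T - i)
  Ξ := c.Ξ
  k := c.k
  ty := fun a => !(c.ty a)
  s := fun i => c.s (c.T - i)
  Tr := c.Tr

/-- the real elements inside level `i` -/
def Xs (c : Ctx) (i : ℕ) : Set ℕ := {e | e ∈ c.F.E ∧ Sum.inl e ∉ c.O i}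

/-- the real elements of window `i` -/
def We (c : Ctx) (i : ℕ) : Set ℕ := c.Xs i \ c.Xs (i + 1)

/-- the internal vertices of window `i` -/
def Jz (c : Ctx) (i : ℕ) : Set ℕ :=
  {v | v ∈ c.F.V ∧ Sum.inr v ∈ c.O (i + 1) ∧ Sum.inr v ∉ c.O i}

/-- low arcs of level `i` -/
def la (c : Ctx) (i : ℕ) (x y : Vx) : Prop := c.F.D c.m x y ∧ y ∉ c.O i ∧
  (x ∉ c.O i ∨ (∃ ξ ∈ c.Ξ, x = Sum.inr ξ) ∨ ∃ a, c.ty a = true ∧ x = Sum.inr (c.s i a))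

/-- low edges of level `i` -/
def low (c : Ctx) (i : ℕ) (x y : Vx) : Prop := c.la i x y ∨ c.la i y x

/-- edges of window `i` -/
def win (c : Ctx) (i : ℕ) (x y : Vx) : Prop := c.low i x y ∧ ¬ c.low (i + 1) x y

/-- the internal vertices strictly inside level `i` -/
def fre (c : Ctx) (i : ℕ) : Set ℕ :=
  {v | v ∈ c.F.V ∧ Sum.inr v ∉ c.O i ∧ v ∉ c.Ξ ∧ ∀ a, v ≠ c.s i a}

/-- the vertices covered from inside in the state `(K, Y)` -/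
def cvS (c : Ctx) (i : ℕ) (K : Set ℕ) (Y : Set (Fin c.k)) : Set ℕ :=
  c.fre i ∪ K ∪ {v | ∃ a ∈ Y, v = c.s i a}

/-- the states of the inner side -/
def St (c : Ctx) (i : ℕ) (A : Set ℕ) : Set (Set ℕ × Set (Fin c.k)) :=
  {p | p.1 ⊆ (c.Ξ : Set ℕ) ∧ Cv c.F (c.low i) (c.Xs i) A (c.cvS i p.1 p.2)}

/-- the states admitted by the outer side -/
def Ct (c : Ctx) (i : ℕ) (U : Set ℕ) : Set (Set ℕ × Set (Fin c.k)) :=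
  {p | Cv c.F (fun x y => ¬ c.low i x y) ((c.F.E : Set ℕ) \ c.Xs i) U
    ((c.F.V : Set ℕ) \ c.cvS i p.1 p.2)}

/-- the region around window `i` -/
def Reg (c : Ctx) (i : ℕ) : Set Vx :=
  (c.O (i + 2) \ c.O (i - 1)) \ (Sum.inr '' (c.Ξ : Set ℕ))

/-- the vertices of the region connected to neighbours of `ξ` and of `η` -/
def Kset (c : Ctx) (i ξ η : ℕ) : Set Vx :=
  {x | (∃ y, c.F.G (Sum.inr ξ) y ∧ RIn c.F.G (c.Reg i) y x) ∧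
    ∃ y, c.F.G (Sum.inr η) y ∧ RIn c.F.G (c.Reg i) y x}

/-- internal vertices of window `i` in `Kset` -/
def KV (c : Ctx) (i ξ η : ℕ) : Set ℕ := {v | v ∈ c.Jz i ∧ Sum.inr v ∈ c.Kset i ξ η}

/-- real elements of window `i` in `Kset` -/
def KE (c : Ctx) (i ξ η : ℕ) : Set ℕ := {e | e ∈ c.We i ∧ Sum.inl e ∈ c.Kset i ξ η}

/-- edges of window `i` at `Kset` -/
def edK (c : Ctx) (i ξ η : ℕ) (x y : Vx) : Prop :=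
  c.win i x y ∧ (x ∈ c.Kset i ξ η ∨ y ∈ c.Kset i ξ η)

/-- window `i` can be made impassable for the pair `ξ`, `η` -/
def Brk (c : Ctx) (i ξ η : ℕ) : Prop :=
  ∃ C' ⊆ c.KE i ξ η, Cv c.F (c.edK i ξ η) (c.KE i ξ η) C' (c.KV i ξ η) ∧
    ¬ Cv c.F (c.edK i ξ η) (c.KE i ξ η) C' (c.KV i ξ η ∪ {ξ, η})

/-- the states of level `i` are closed under adding the pair `ξ`, `η` -/
def Cls (c : Ctx) (i ξ η : ℕ) : Prop := ∀ A ⊆ c.Xs i, ∀ K Y, (K, Y) ∈ c.St i A → ξ ∉ K →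
  η ∉ K → (K ∪ {ξ, η}, Y) ∈ c.St i A

/-- `x` is a boundary vertex of window `i` on rail `a` -/
def Prt (c : Ctx) (i : ℕ) (a : Fin c.k) (x : Vx) : Prop :=
  x = Sum.inr (c.s i a) ∨ x = Sum.inr (c.s (i + 1) a)

/-- two rails are connected in the region -/
def BadRR (c : Ctx) (i : ℕ) : Prop := ∃ a b x y, a ≠ b ∧ c.Prt i a x ∧ c.Prt i b y ∧
  RIn c.F.G (c.Reg i) x y

/-- two vertices of `Ξ` on the same side are connected through the region -/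
def BadXX (c : Ctx) (i : ℕ) : Prop := ∃ ξ ∈ c.Ξ, ∃ ξ' ∈ c.Ξ, ξ ≠ ξ' ∧
  (Sum.inr ξ ∈ c.O 0 ↔ Sum.inr ξ' ∈ c.O 0) ∧ ∃ x y, c.F.G (Sum.inr ξ) x ∧
    c.F.G (Sum.inr ξ') y ∧ RIn c.F.G (c.Reg i) x y

/-- a vertex of `Ξ` and a rail are connected through the region -/
def BadXR (c : Ctx) (i : ℕ) : Prop := ∃ ξ ∈ c.Ξ, ∃ a x y, c.F.G (Sum.inr ξ) x ∧
  c.Prt i a y ∧ RIn c.F.G (c.Reg i) x y

/-- good windows -/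
def GoodW (c : Ctx) (i : ℕ) : Prop := 1 ≤ i ∧ i + 2 ≤ c.T ∧ ¬ c.BadRR i ∧ ¬ c.BadXX i ∧
  ¬ c.BadXR i

end Ctx

/-- SEL: from chains to contexts -/
def T_SEL : Prop := ∀ k K g T : ℕ, ∃ N : ℕ, ∀ (F : Frame) (m : ℕ → Vx) (O : ℕ → Set Vx)
  (len : Fin k → ℕ) (r : Fin k → ℕ → Vx) (pz : ℕ → Fin k → ℕ) (Ξ : Finset ℕ),
  Chn F m N O k len r → Zc F m N O k len r pz →
  (∀ i ≤ N, ∀ c, ∀ p ≤ len c, (r c p ∈ O i → p ≤ pz i c + g) ∧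
    (r c p ∉ O i → pz i c ≤ p + g)) → XiP F m N O k r pz Ξ → Ξ.card ≤ K →
  ∃ (c : Ctx) (ix : ℕ → ℕ), c.Ok ∧ c.F = F ∧ c.m = m ∧ c.T = T ∧ c.k ≤ k ∧
    c.Ξ.card ≤ K + 2 * k ∧ (∀ i < T, ix i < ix (i + 1)) ∧ ix T ≤ N ∧
    ∀ i ≤ T, c.O i = O (ix i)

/-- RCD: contexts are closed under duality -/
def T_RCD : Prop := ∀ c : Ctx, c.Ok → c.dual.Ok

/-- LEX: walks avoiding the boundary vertices of level `j` do not cross level `j` -/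
def T_LEX : Prop := ∀ c : Ctx, c.Ok → ∀ j ≤ c.T, ∀ x y : Vx,
  RIn (c.F.D c.m) {z | (∀ ξ ∈ c.Ξ, z ≠ Sum.inr ξ) ∧ ∀ a, z ≠ Sum.inr (c.s j a)} x y →
  (x ∈ c.O j ↔ y ∈ c.O j)

/-! ## Block U: few bad windows -/

/-- ULB: few disjoint connections between two disjoint rooted sets -/
def T_ULB : Prop := ∀ q : ℕ, 1 < q → ∀ φ : ℕ → ℕ, Monotone φ → ∃ R : ℕ,
  ∀ (M : Matroid ℕ) (F : Frame) (m : ℕ → Vx), Gam q M → F.Rep M → Good F φ → F.IsPM m →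
  ∀ a₁ a₂ : ℕ, a₁ ≠ a₂ → a₁ ∈ F.E → a₁ ∉ F.base m → a₂ ∈ F.E → a₂ ∉ F.base m →
  ∀ T₁ T₂ : Set Vx, Disjoint T₁ T₂ → (∀ x ∈ T₁, RIn (F.D m) T₁ (Sum.inl a₁) x) →
  (∀ x ∈ T₂, RIn (F.D m) T₂ (Sum.inl a₂) x) →
  ∀ (n : ℕ) (Gr E E' : Fin n → Set Vx) (t t' : Fin n → Vx),
  (∀ j j', j ≠ j' → Disjoint (Gr j) (Gr j')) → (∀ j, E j ⊆ Gr j ∧ E' j ⊆ Gr j ∧ t j ∈ E j ∧
    t' j ∈ E' j ∧ t j ∈ F.snk m ∧ t' j ∈ F.snk m ∧ RIn F.G (Gr j) (t j) (t' j) ∧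
    (∀ x ∈ E j, ∃ u ∈ T₁, RIn (F.D m) (insert u (E j)) u x) ∧
    ∀ x ∈ E' j, ∃ u ∈ T₂, RIn (F.D m) (insert u (E' j)) u x) → n ≤ R

/-- GRP: many windows have local exits -/
def T_GRP : Prop := ∀ φ : ℕ → ℕ, Monotone φ → ∀ σ n : ℕ, ∃ R : ℕ, ∀ c : Ctx, c.Ok →
  c.F.Exits c.m φ → c.Ξ.card + c.k ≤ σ → ∀ (I : Set ℕ) (u u' : ℕ → Vx),
  (∀ i ∈ I, 1 ≤ i ∧ i + 2 ≤ c.T ∧ (u i ∈ c.F.inn ∨ u i ∈ c.F.snk c.m) ∧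
    (u' i ∈ c.F.inn ∨ u' i ∈ c.F.snk c.m) ∧ RIn c.F.G (c.Reg i) (u i) (u' i)) →
  R < I.ncard → ∃ (ix : Fin n → ℕ) (Gr E E' : Fin n → Set Vx) (t t' : Fin n → Vx),
    (∀ j j', j ≠ j' → Disjoint (Gr j) (Gr j')) ∧
    ∀ j, ix j ∈ I ∧ E j ⊆ Gr j ∧ E' j ⊆ Gr j ∧ t j ∈ E j ∧ t' j ∈ E' j ∧
      t j ∈ c.F.snk c.m ∧ t' j ∈ c.F.snk c.m ∧ RIn c.F.G (Gr j) (t j) (t' j) ∧
      (∀ x ∈ E j, RIn (c.F.D c.m) (E j) (u (ix j)) x) ∧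
      ∀ x ∈ E' j, RIn (c.F.D c.m) (E' j) (u' (ix j)) x

/-- BRR: few windows connect two rails -/
def T_BRR : Prop := ∀ q : ℕ, 1 < q → ∀ φ : ℕ → ℕ, Monotone φ → ∀ σ : ℕ, ∃ R : ℕ,
  ∀ (M : Matroid ℕ) (c : Ctx), Gam q M → c.F.Rep M → Good c.F φ → c.Ok →
  c.Ξ.card + c.k ≤ σ → {i | 1 ≤ i ∧ i + 2 ≤ c.T ∧ c.BadRR i}.ncard ≤ R

/-- BXX: few windows connect two outer vertices of `Ξ` -/
def T_BXX : Prop := ∀ q : ℕ, 1 < q → ∀ φ : ℕ → ℕ, Monotone φ → ∀ σ : ℕ, ∃ R : ℕ,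
  ∀ (M : Matroid ℕ) (c : Ctx), Gam q M → c.F.Rep M → Good c.F φ → c.F.CoFan c.m → c.Ok →
  c.Ξ.card + c.k ≤ σ → {i | 1 ≤ i ∧ i + 2 ≤ c.T ∧ ∃ ξ ∈ c.Ξ, ∃ ξ' ∈ c.Ξ, ξ ≠ ξ' ∧
    Sum.inr ξ ∈ c.O 0 ∧ Sum.inr ξ' ∈ c.O 0 ∧ ∃ x y, c.F.G (Sum.inr ξ) x ∧
      c.F.G (Sum.inr ξ') y ∧ RIn c.F.G (c.Reg i) x y}.ncard ≤ R

/-- BXR: few windows connect an outer vertex of `Ξ` and a rail -/
def T_BXR : Prop := ∀ q : ℕ, 1 < q → ∀ φ : ℕ → ℕ, Monotone φ → ∀ σ : ℕ, ∃ R : ℕ,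
  ∀ (M : Matroid ℕ) (c : Ctx), Gam q M → c.F.Rep M → Good c.F φ → c.F.CoFan c.m → c.Ok →
  c.Ξ.card + c.k ≤ σ → {i | 1 ≤ i ∧ i + 2 ≤ c.T ∧ ∃ ξ ∈ c.Ξ, Sum.inr ξ ∈ c.O 0 ∧
    ∃ a x y, c.F.G (Sum.inr ξ) x ∧ c.Prt i a y ∧ RIn c.F.G (c.Reg i) x y}.ncard ≤ R

/-- GWB: few bad windows -/
def T_GWB : Prop := ∀ q : ℕ, 1 < q → ∀ φ : ℕ → ℕ, Monotone φ → ∀ σ : ℕ, ∃ R : ℕ,
  ∀ (M : Matroid ℕ) (c : Ctx), Gam q M → c.F.Rep M → Good c.F φ → c.F.Fan c.m →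
  c.F.CoFan c.m → c.Ok → c.Ξ.card + c.k ≤ σ →
  {i | 1 ≤ i ∧ i + 2 ≤ c.T ∧ ¬ c.GoodW i}.ncard ≤ R

/-! ## Block S: states -/

/-- LOWA: low edges of a level -/
def T_LOWA : Prop := ∀ c : Ctx, c.Ok → ∀ i ≤ c.T,
  (∀ e v, c.F.att e v → (c.low i (Sum.inl e) (Sum.inr v) ↔ e ∈ c.Xs i)) ∧
  (∀ v ∈ c.fre i, ∀ y, c.F.G (Sum.inr v) y → c.low i (Sum.inr v) y) ∧
  ∀ v, Sum.inr v ∈ c.O i → v ∉ c.Ξ → (∀ a, v ≠ c.s i a) → ∀ y, ¬ c.low i (Sum.inr v) y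

/-- LOWB: edges of a window -/
def T_LOWB : Prop := ∀ c : Ctx, c.Ok → ∀ i < c.T,
  (∀ x y, c.low (i + 1) x y → c.low i x y) ∧
  (∀ e v, c.F.att e v → (c.win i (Sum.inl e) (Sum.inr v) ↔ e ∈ c.We i)) ∧
  (∀ x y, c.win i x y → ((x ∈ c.O (i + 1) ∧ x ∉ c.O i) ∨ (∃ ξ ∈ c.Ξ, x = Sum.inr ξ) ∨
    ∃ a, (c.ty a = true ∧ x = Sum.inr (c.s i a)) ∨
      (c.ty a = false ∧ x = Sum.inr (c.s (i + 1) a)))) ∧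
  (∀ x y, c.win i x y → ¬ ((∃ ξ ∈ c.Ξ, x = Sum.inr ξ) ∧ ∃ ξ ∈ c.Ξ, y = Sum.inr ξ)) ∧
  (∀ v ∈ c.Jz i, (∀ a, v ≠ c.s i a ∧ v ≠ c.s (i + 1) a) → ∀ y, c.F.G (Sum.inr v) y →
    c.win i (Sum.inr v) y) ∧
  (∀ x y, c.F.D c.m x y → x ∈ c.O (i + 1) → x ∉ c.O i → y ∈ c.O (i + 1) → y ∉ c.O i →
    c.win i x y) ∧
  (∀ (K : Set ℕ) (Y : Set (Fin c.k)), c.cvS (i + 1) K Y ⊆ c.cvS i K Y) ∧
  (∀ (K K' : Set ℕ) (Y Y' : Set (Fin c.k)), K ⊆ (c.Ξ : Set ℕ) → K' ⊆ K → ∀ v,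
    (v ∈ c.cvS i K Y \ c.cvS (i + 1) K' Y' ↔ (v ∈ c.Jz i ∧ (∀ a, v ≠ c.s i a) ∧
      ∀ a, v ≠ c.s (i + 1) a) ∨ (v ∈ K ∧ v ∉ K') ∨ (∃ a ∈ Y, v = c.s i a) ∨
      ∃ a, a ∉ Y' ∧ v = c.s (i + 1) a))

/-- STC: bases are met by states -/
def T_STC : Prop := ∀ (M : Matroid ℕ) (c : Ctx), c.F.Rep M → c.Ok → ∀ i ≤ c.T,
  ∀ A ⊆ c.Xs i, ∀ U ⊆ M.E \ c.Xs i,
  (M.IsBase (A ∪ U) ↔ ∃ p, p ∈ c.St i A ∧ p ∈ c.Ct i U)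

/-- WIN: composition with a window -/
def T_WIN : Prop := ∀ c : Ctx, c.Ok → ∀ i < c.T, ∀ A ⊆ c.Xs (i + 1), ∀ C ⊆ c.We i,
  ∀ K ⊆ (c.Ξ : Set ℕ), ∀ Y : Set (Fin c.k), ((K, Y) ∈ c.St i (A ∪ C) ↔
    ∃ K' ⊆ K, ∃ Y' : Set (Fin c.k), (K', Y') ∈ c.St (i + 1) A ∧
      c.cvS (i + 1) K' Y' ⊆ c.cvS i K Y ∧
      Cv c.F (c.win i) (c.We i) C (c.cvS i K Y \ c.cvS (i + 1) K' Y'))

/-- KPR: the sets `Kset` in good windows -/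
def T_KPR : Prop := ∀ c : Ctx, c.Ok → ∀ j, c.GoodW j → ∀ ξ ∈ c.Ξ, ∀ η ∈ c.Ξ,
  Sum.inr ξ ∈ c.O 0 → Sum.inr η ∉ c.O c.T →
  (∀ x ∈ c.Kset j ξ η, x ∈ c.Reg j ∧ ∀ a, ¬ c.Prt j a x) ∧
  (∀ x ∈ c.Kset j ξ η, ∀ y ∈ c.Reg j, c.F.G x y → y ∈ c.Kset j ξ η) ∧
  (∀ ξ' ∈ c.Ξ, ∀ x ∈ c.Kset j ξ η, c.F.G (Sum.inr ξ') x → ξ' = ξ ∨ ξ' = η) ∧
  (∀ e, Sum.inl e ∈ c.Kset j ξ η → ∃ v, c.F.att e v ∧ Sum.inr v ∈ c.Kset j ξ η) ∧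
  (∀ e ∈ c.KE j ξ η, ∃ v ∈ c.KV j ξ η, c.F.att e v) ∧
  (∀ v ∈ c.KV j ξ η, ∀ e, c.F.att e v → e ∈ c.KE j ξ η) ∧
  (∀ v ∈ c.KV j ξ η, ∀ u, c.F.G (Sum.inr v) (Sum.inr u) → u ∈ c.KV j ξ η ∨ u = ξ ∨ u = η) ∧
  (∀ v ∈ c.KV j ξ η, ∀ y, c.F.G (Sum.inr v) y → c.edK j ξ η (Sum.inr v) y) ∧
  ∀ ξ' ∈ c.Ξ, ∀ η' ∈ c.Ξ, Sum.inr ξ' ∈ c.O 0 → Sum.inr η' ∉ c.O c.T →
    ∀ x, x ∈ c.Kset j ξ η → x ∈ c.Kset j ξ' η' → ξ' = ξ ∧ η' = η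

/-- CLS: closedness above a good window that cannot be broken -/
def T_CLS : Prop := ∀ c : Ctx, c.Ok → ∀ j, c.GoodW j → ∀ ξ ∈ c.Ξ, ∀ η ∈ c.Ξ,
  Sum.inr ξ ∈ c.O 0 → Sum.inr η ∉ c.O c.T → ¬ c.Brk j ξ η → ∀ i ≤ j, c.Cls i ξ η

/-- the base of a window, with its matching -/
def Ctx.MuP (c : Ctx) (i : ℕ) (C : Set ℕ) (μ : ℕ → Vx) : Prop :=
  C ⊆ c.We i ∧ PMat c.F (c.win i) (c.Jz i) μ ∧
    (∀ e ∈ c.We i, (e ∈ C ↔ Bs c.F (c.Jz i) μ e)) ∧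
    (∀ v ∈ c.Jz i, (∀ ξ ∈ c.Ξ, ∀ η ∈ c.Ξ, Sum.inr ξ ∈ c.O 0 → Sum.inr η ∉ c.O c.T →
      v ∉ c.KV i ξ η) → μ v = c.m v) ∧
    ∀ ξ ∈ c.Ξ, ∀ η ∈ c.Ξ, Sum.inr ξ ∈ c.O 0 → Sum.inr η ∉ c.O c.T → c.Brk i ξ η →
      ¬ Cv c.F (c.edK i ξ η) (c.KE i ξ η) (C ∩ c.KE i ξ η) (c.KV i ξ η ∪ {ξ, η})

/-- MU0: breaking all breakable pairs of a good window -/
def T_MU0 : Prop := ∀ c : Ctx, c.Ok → ∀ i, c.GoodW i → ∃ C μ, c.MuP i C μ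

/-- FLP: flipping a partial matching along disjoint paths -/
def T_FLP : Prop := ∀ (F : Frame) (m : ℕ → Vx), F.IsPM m → ∀ ed : Vx → Vx → Prop,
  (∀ x y, ed x y → ed y x) → ∀ (J : Set ℕ) (μ : ℕ → Vx), PMat F ed J μ →
  ∀ (k : ℕ) (Y : Set (Fin k)) (l : Fin k → List Vx) (st en ad rm : Fin k → ℕ),
  (∀ a ∈ Y, IsPath (F.D m) (l a) (Sum.inr (st a)) (Sum.inr (en a))) →
  (∀ a ∈ Y, ∀ x y, Nxt (l a) x y → ed x y) →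
  (∀ a ∈ Y, ∀ b ∈ Y, a ≠ b → ∀ x ∈ l a, x ∉ l b) →
  (∀ a ∈ Y, ∀ v, Sum.inr v ∈ l a → v ∈ J → μ v = m v) →
  (∀ a ∈ Y, st a ≠ en a ∧ ((F.isP (st a) ∧ F.isP (en a) ∧ ad a = st a ∧ rm a = en a) ∨
    (¬ F.isP (st a) ∧ ¬ F.isP (en a) ∧ ad a = en a ∧ rm a = st a)) ∧ ad a ∉ J ∧
    ∀ v, Sum.inr v ∈ l a → v ≠ ad a → v ∈ J) →
  ∃ μ', PMat F ed {v | (v ∈ J ∧ ∀ a ∈ Y, v ≠ rm a) ∨ ∃ a ∈ Y, v = ad a} μ' ∧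
    ∀ e v, F.att e v → ((((v ∈ J ∧ ∀ a ∈ Y, v ≠ rm a) ∨ ∃ a ∈ Y, v = ad a) ∧
      μ' v = Sum.inl e) ↔ (v ∈ J ∧ μ v = Sum.inl e))

/-- TRA: all rail states pass through a good window -/
def T_TRA : Prop := ∀ c : Ctx, c.Ok → ∀ i, c.GoodW i → ∀ C μ, c.MuP i C μ →
  ∀ K ⊆ (c.Ξ : Set ℕ), ∀ Y : Set (Fin c.k),
  Cv c.F (c.win i) (c.We i) C (c.cvS i K Y \ c.cvS (i + 1) K Y)

/-- TRB: a good window preserves rail states and adds only unbroken pairs -/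
def T_TRB : Prop := ∀ c : Ctx, c.Ok → ∀ i, c.GoodW i → ∀ C μ, c.MuP i C μ →
  ∀ K ⊆ (c.Ξ : Set ℕ), ∀ K' ⊆ K, ∀ Y Y' : Set (Fin c.k), c.cvS (i + 1) K' Y' ⊆ c.cvS i K Y →
  Cv c.F (c.win i) (c.We i) C (c.cvS i K Y \ c.cvS (i + 1) K' Y') →
  Y = Y' ∧ ∃ g : ℕ → ℕ, Set.InjOn g {ξ | ξ ∈ K \ K' ∧ Sum.inr ξ ∈ c.O 0} ∧
    (∀ ξ ∈ K \ K', Sum.inr ξ ∈ c.O 0 → g ξ ∈ K \ K' ∧ Sum.inr (g ξ) ∉ c.O 0 ∧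
      ¬ c.Brk i ξ (g ξ)) ∧
    ∀ η ∈ K \ K', Sum.inr η ∉ c.O 0 → ∃ ξ ∈ K \ K', Sum.inr ξ ∈ c.O 0 ∧ g ξ = η

/-- TRF: transfer of states through a good window -/
def T_TRF : Prop := ∀ c : Ctx, c.Ok → ∀ i, c.GoodW i →
  (∀ ξ ∈ c.Ξ, ∀ η ∈ c.Ξ, Sum.inr ξ ∈ c.O 0 → Sum.inr η ∉ c.O c.T →
    c.Brk i ξ η ∨ c.Cls (i + 1) ξ η) →
  ∃ C ⊆ c.Xs i \ c.Xs (i + 1), ∀ A ⊆ c.Xs (i + 1), c.St i (A ∪ C) = c.St (i + 1) A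

/-- STA: states stabilise -/
def T_STA : Prop := ∀ σ k R : ℕ, ∃ T₀ : ℕ, ∀ T, T₀ ≤ T → ∀ (M : Matroid ℕ) (X : ℕ → Set ℕ)
  (Ξ : Finset ℕ) (St Ct : ℕ → Set ℕ → Set (Set ℕ × Set (Fin k))) (bad : Set ℕ), Ξ.card ≤ σ →
  (∀ i A, ∀ p ∈ St i A, p.1 ⊆ (Ξ : Set ℕ)) →
  (∀ i ≤ T, ∀ A ⊆ X i, ∀ U ⊆ M.E \ X i, (M.IsBase (A ∪ U) ↔ ∃ p, p ∈ St i A ∧ p ∈ Ct i U)) →
  (∀ i < T, X (i + 1) ⊆ X i) → (∀ i ≤ T, X i ⊆ M.E) → bad.Finite → bad.ncard ≤ R →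
  (∀ i < T, i ∉ bad → ∃ C ⊆ X i \ X (i + 1), ∀ A ⊆ X (i + 1), St i (A ∪ C) = St (i + 1) A) →
  ∃ i < T, Trf M (X (i + 1)) (X i)

/-- KP: long linked chains of separations have an injective transfer -/
def T_KP : Prop := ∀ q : ℕ, 1 < q → ∀ φ : ℕ → ℕ, Monotone φ → ∀ k : ℕ, ∃ N : ℕ,
  ∀ (M : Matroid ℕ) (F : Frame), Gam q M → F.Rep M →
  (∀ m, F.IsPM m → F.Exits m φ ∧ F.Feeds m φ ∧ F.Fan m ∧ F.CoFan m) →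
  ∀ X : ℕ → Set ℕ, (∀ i ≤ N, X i ⊆ M.E ∧ lam M (X i) = k) → (∀ i < N, X (i + 1) ⊆ X i) →
  (∀ Z, X N ⊆ Z → Z ⊆ X 0 → k ≤ lam M Z) → ∃ i j, i < j ∧ j ≤ N ∧ Trf M (X j) (X i)

end Pool.Agent.H55.GW
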