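import Pool.Agent.H55.GW.Asm1
import Pool.Agent.H55.GW.KP
import Pool.Agent.H55.GW.FRZ
import Pool.Agent.H10.GW.SEL
import Pool.Agent.H18.GW.STC
import Pool.Agent.H18.GW.TRF
import Pool.Agent.H18.GW.WIN
import Pool.Agent.H19.GW.GRP
import Pool.Agent.H19.GW.TRB
import Pool.Agent.H20.GW.TRA
import Pool.Agent.H20.GW.ULB
import Pool.Agent.H26.GW.NEAR
import Pool.Agent.H26.GW.ZCE
import Pool.Agent.H26.GW.ZCM
import Pool.Agent.H4.GW.Kpr
import Pool.Agent.H4.GW.Low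
import Pool.Agent.H47.GW2.BXX
import Pool.Agent.H47.GW2.RC
import Pool.Agent.H41.GW.TL
import Pool.Agent.H41.GW.WQS
import Pool.Agent.H54.GW.BRR
import Pool.Agent.H57.GW.BXR
import Pool.Agent.H57.GW.GWB
import Pool.Agent.H62.GW.RCD
import Pool.Agent.H62.GW.XI
import Pool.Agent.H62.GW.ZC
import Pool.Agent.H70.GW.IMB
import Pool.Agent.H70.GW.MNR
import Pool.Agent.H73.GW.Flp
import Pool.Agent.H73.GW.Part
import Pool.Agent.H73.GW.SunSq
import Pool.Agent.H74.GW.LAB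
import Pool.Agent.H74.GW.RS
import Pool.Agent.H74.GW.STA
import Pool.Agent.H84.GW.XU
import Pool.Agent.H84.GW.XW
import Pool.Agent.H87.GW.CHN
import Pool.Agent.H87.GW.IMA
import Pool.Agent.H87.GW.TLA
import Pool.Agent.H89.GW.CHO

/-!
# Assembly of stage 3
-/

set_option autoImplicit false

namespace Pool.Agent.H55.GW.Asm

open Pool.Agent.H55.GW

theorem fpm : T_FPM := Pool.Agent.H73.GW.fpm
theorem spl : T_SPL := Pool.Agent.H73.GW.spl
theorem bal : T_BAL := Pool.Agent.H73.GW.bal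
theorem rc : T_RC := Pool.Agent.H47.GW2.rc cc spl fpm
theorem btf : T_BTF := Pool.Agent.H89.GW.btf
theorem cho : T_CHO := Pool.Agent.H89.GW.cho
theorem ima : T_IMA := Pool.Agent.H87.GW.IMA.ima
theorem imb : T_IMB := Pool.Agent.H70.GW.imb ima
theorem lnk : T_LNK := Pool.Agent.H89.GW.lnk cho ima imb
theorem rs : T_RS := Pool.Agent.H74.GW.rs
theorem lab : T_LAB := Pool.Agent.H74.GW.lab
theorem mnr : T_MNR := Pool.Agent.H70.GW.mnr
theorem tla : T_TLA := Pool.Agent.H87.GW.TLA.tla tut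
theorem rls : T_RLS := Pool.Agent.H62.GW.rls
theorem zcm : T_ZCM := Pool.Agent.H26.GW.zcm
theorem zce : T_ZCE := Pool.Agent.H26.GW.zce men
theorem zc : T_ZC := Pool.Agent.H62.GW.zc zcm zce
theorem near : T_NEAR := Pool.Agent.H26.GW.near
theorem sun : T_SUN := Pool.Agent.H73.GW.sun
theorem xu : T_XU := Pool.Agent.H84.GW.xu men sun lo
theorem xw : T_XW := Pool.Agent.H84.GW.xw xu dur dug
theorem xi : T_XI := Pool.Agent.H62.GW.xi xu xw
theorem sq : T_SQ := Pool.Agent.H73.GW.sq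
theorem sel : T_SEL := Pool.Agent.H10.GW.sel sq
theorem rcd : T_RCD := Pool.Agent.H62.GW.rcd
theorem lex : T_LEX := Pool.Agent.H62.GW.lex
theorem ulb : T_ULB := Pool.Agent.H20.GW.ulb lo utu
theorem grp : T_GRP := Pool.Agent.H19.GW.GRP.grp lex
theorem brr : T_BRR := Pool.Agent.H54.GW.brr grp ulb
theorem bxx : T_BXX := Pool.Agent.H47.GW2.bxx grp ulb men
theorem bxr : T_BXR := Pool.Agent.H57.GW.bxr grp ulb lex
theorem gwb : T_GWB := Pool.Agent.H57.GW.gwb brr bxx bxr rcd dur dug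
theorem lowa : T_LOWA := Pool.Agent.H4.GW.lowa
theorem lowb : T_LOWB := Pool.Agent.H4.GW.lowb lowa
theorem stc : T_STC := Pool.Agent.H18.GW.STC.stc fpm spl lowa
theorem win : T_WIN := Pool.Agent.H18.GW.WIN.win spl lowa lowb
theorem kpr : T_KPR := Pool.Agent.H4.GW.kpr lowb
theorem cls : T_CLS := Pool.Agent.H4.GW.cls kpr lowb
theorem mu0 : T_MU0 := Pool.Agent.H4.GW.mu0 kpr lowb
theorem flp : T_FLP := Pool.Agent.H73.GW.flp
theorem tra : T_TRA := Pool.Agent.H20.GW.tra flp lowb kpr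
theorem trb : T_TRB := Pool.Agent.H19.GW.TRB.trb bal kpr lowb
theorem trf : T_TRF := Pool.Agent.H18.GW.TRF.trf mu0 tra trb win lowb
theorem sta : T_STA := Pool.Agent.H74.GW.sta

theorem tl : T_TL := Pool.Agent.H41.GW.tl tla
theorem chn : T_CHN := Pool.Agent.H87.GW.CHN.chn tl rls lb laml lms
theorem kp' : T_KP := kp chn zc near xi sel gwb stc cls trf sta
theorem wqs : T_WQS := Pool.Agent.H41.GW.wqs rs

theorem frozen : ∀ q : ℕ, 1 < q → ∀ M : ℕ → Matroid ℕ,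
    (∀ i, (M i).Finite ∧
      (∃ N : Matroid ℕ, N.Finite ∧
        (∃ r : ℕ, ∃ A : Fin r → Set ℕ, ∀ I : Set ℕ,
          N.Indep I ↔ (I ⊆ N.E ∧ ∃ f : ℕ → Fin r, Set.InjOn f I ∧ ∀ x ∈ I, x ∈ A (f x))) ∧
        (M i).E ⊆ N.E ∧ M i = N.dual.restrict (M i).E) ∧
      (¬ ∃ N : Matroid ℕ, N.IsMinor (M i) ∧ N.E.ncard = q + 2 ∧
        ∀ I : Set ℕ, N.Indep I ↔ (I ⊆ N.E ∧ I.ncard ≤ 2)) ∧
      (¬ ∃ N : Matroid ℕ, N.IsMinor (M i) ∧ N.E.ncard = q + 2 ∧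
        ∀ I : Set ℕ, N.Indep I ↔ (I ⊆ N.E ∧ I.ncard ≤ q))) →
    ∃ i j : ℕ, i ≠ j ∧ ∃ N : Matroid ℕ, N.IsMinor (M j) ∧
      ∃ f : ℕ → ℕ, Set.BijOn f (M i).E N.E ∧
        ∀ I : Set ℕ, I ⊆ (M i).E → ((M i).Indep I ↔ N.Indep (f '' I)) :=
  frz gf bw fro btf lnk lms rc kp' lab wqs mnr

end Pool.Agent.H55.GW.Asm
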