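import Mathlib

/-!
# Gammoids without long lines and colines (MP_97b7aa_co): definitions

Vertices live in `Vx = ℕ ⊕ ℕ`: `Sum.inl e` is the real element `e`, `Sum.inr v` the internal
vertex `v` of a frame.
-/

set_option autoImplicit false

namespace Pool.Agent.H55.GW

/-! ## Directed graphs -/

/-- there is a directed walk from `x` to `y` all of whose vertices lie in `S` -/
def RIn {W : Type} (D : W → W → Prop) (S : Set W) (x y : W) : Prop :=
  x ∈ S ∧ Relation.ReflTransGen (fun u v => D u v ∧ v ∈ S) x y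

/-- `S` meets every directed walk from `X` to `Y` -/
def Sep {W : Type} (D : W → W → Prop) (S X Y : Set W) : Prop :=
  ∀ x ∈ X, ∀ y ∈ Y, ¬ RIn D Sᶜ x y

/-- there are `n` pairwise vertex-disjoint directed walks from `X` to `Y` -/
def Lnk {W : Type} (D : W → W → Prop) (n : ℕ) (X Y : Set W) : Prop :=
  ∃ (x y : Fin n → W) (S : Fin n → Set W),
    (∀ i, x i ∈ X ∧ y i ∈ Y ∧ RIn D (S i) (x i) (y i)) ∧
      ∀ i j, i ≠ j → Disjoint (S i) (S j)

/-- the list `l` is a simple directed path from `x` to `y` -/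
def IsPath {W : Type} (D : W → W → Prop) (l : List W) (x y : W) : Prop :=
  l.IsChain D ∧ l.Nodup ∧ l.head? = some x ∧ l.getLast? = some y

/-- `v` follows `u` in the list `l` -/
def Nxt {W : Type} (l : List W) (u v : W) : Prop := ∃ l₁ l₂, l = l₁ ++ u :: v :: l₂

/-- minimum size of a separator -/
noncomputable def cut {W : Type} (D : W → W → Prop) (X Y : Set W) : ℕ :=
  sInf {n | ∃ S : Finset W, S.card = n ∧ Sep D (S : Set W) X Y}

/-! ## Frames -/

/-- vertices: real elements and internal vertices -/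
abbrev Vx := ℕ ⊕ ℕ

/-- a bipartite graph with real elements hanging at some of its vertices -/
structure Frame where
  /-- internal vertices -/
  V : Finset ℕ
  /-- real elements -/
  E : Finset ℕ
  /-- class `P` (the other internal vertices are of class `Q`) -/
  isP : ℕ → Prop
  /-- `adj p q`: edge between `p` of class `P` and `q` of class `Q` -/
  adj : ℕ → ℕ → Prop
  /-- `att e v`: the real element `e` hangs at the internal vertex `v` -/
  att : ℕ → ℕ → Prop
  /-- an unattached real element is a coloop if `co e`, otherwise a loop -/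
  co : ℕ → Prop
  adj_wf : ∀ p q, adj p q → p ∈ V ∧ q ∈ V ∧ isP p ∧ ¬ isP q
  att_wf : ∀ e v, att e v → e ∈ E ∧ v ∈ V
  att_uniq : ∀ e v w, att e v → att e w → v = w

namespace Frame

/-- a perfect matching: every internal vertex is matched to an internal neighbour (symmetrically)
or to a real element hanging at it.  (Values of `m` outside `F.V` are junk.) -/
def IsPM (F : Frame) (m : ℕ → Vx) : Prop :=
  ∀ v ∈ F.V, (∀ e, m v = Sum.inl e → F.att e v) ∧
    (∀ u, m v = Sum.inr u → (F.adj v u ∨ F.adj u v) ∧ m u = Sum.inr v)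

/-- the base of a perfect matching -/
def base (F : Frame) (m : ℕ → Vx) : Set ℕ :=
  {e | e ∈ F.E ∧ ((∃ v, F.att e v ∧ (F.isP v ↔ m v ≠ Sum.inl e)) ∨
    ((∀ v, ¬ F.att e v) ∧ F.co e))}

/-- the directed graph of a perfect matching: matched edges are directed from `Q` to `P`, the
others from `P` to `Q`; a real element in the base is a sink, the others are sources -/
def D (F : Frame) (m : ℕ → Vx) : Vx → Vx → Prop
  | Sum.inr u, Sum.inr v => (F.adj u v ∧ m u ≠ Sum.inr v) ∨ (F.adj v u ∧ m u = Sum.inr v)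
  | Sum.inl e, Sum.inr v => F.att e v ∧ e ∉ F.base m
  | Sum.inr v, Sum.inl e => F.att e v ∧ e ∈ F.base m
  | Sum.inl _, Sum.inl _ => False

/-- the underlying undirected graph -/
def G (F : Frame) : Vx → Vx → Prop
  | Sum.inr u, Sum.inr v => F.adj u v ∨ F.adj v u
  | Sum.inl e, Sum.inr v => F.att e v
  | Sum.inr v, Sum.inl e => F.att e v
  | Sum.inl _, Sum.inl _ => False

/-- the matroid of the frame is `M` -/
def Rep (F : Frame) (M : Matroid ℕ) : Prop :=
  M.E = (F.E : Set ℕ) ∧ ∀ B : Set ℕ, M.IsBase B ↔ ∃ m, F.IsPM m ∧ F.base m = B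

/-- the real elements outside the base (as vertices) -/
def src (F : Frame) (m : ℕ → Vx) : Set Vx := {x | ∃ e ∈ F.E, e ∉ F.base m ∧ x = Sum.inl e}

/-- the real elements of the base (as vertices) -/
def snk (F : Frame) (m : ℕ → Vx) : Set Vx := {x | ∃ e ∈ F.base m, x = Sum.inl e}

/-- the internal vertices (as vertices) -/
def inn (F : Frame) : Set Vx := {x | ∃ v ∈ F.V, x = Sum.inr v}

/-- all vertices -/
def uni (F : Frame) : Set Vx := {x | (∃ v ∈ F.V, x = Sum.inr v) ∨ ∃ e ∈ F.E, x = Sum.inl e}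

/-- number of edges between internal vertices -/
noncomputable def edges (F : Frame) : ℕ := {p : ℕ × ℕ | F.adj p.1 p.2}.ncard

/-- the dual frame -/
def dual (F : Frame) : Frame where
  V := F.V
  E := F.E
  isP := fun v => ¬ F.isP v
  adj := fun p q => F.adj q p
  att := F.att
  co := fun e => ¬ F.co e
  adj_wf := fun p q h => by
    obtain ⟨h1, h2, h3, h4⟩ := F.adj_wf q p h
    exact ⟨h2, h1, h4, not_not.mpr h3⟩
  att_wf := F.att_wf
  att_uniq := F.att_uniq

/-- the vertex `v` has no internal neighbour and exactly two real neighbours -/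
def Exc (F : Frame) (v : ℕ) : Prop :=
  (∀ u, ¬ F.adj v u ∧ ¬ F.adj u v) ∧
    ∃ e e', e ≠ e' ∧ F.att e v ∧ F.att e' v ∧ ∀ e'', F.att e'' v → e'' = e ∨ e'' = e'

/-- no single vertex other than `p` separates a non-exceptional vertex `p` of class `P` from the
sinks -/
def Fan (F : Frame) (m : ℕ → Vx) : Prop :=
  ∀ p ∈ F.V, F.isP p → F.Exc p ∨ ∀ z : Vx, z ≠ Sum.inr p →
    ∃ t ∈ F.snk m, RIn (F.D m) {z}ᶜ (Sum.inr p) t

/-- no single vertex other than `q` separates a non-exceptional vertex `q` of class `Q` from the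
sources -/
def CoFan (F : Frame) (m : ℕ → Vx) : Prop :=
  ∀ q ∈ F.V, ¬ F.isP q → F.Exc q ∨ ∀ z : Vx, z ≠ Sum.inr q →
    ∃ s ∈ F.src m, RIn (F.D m) {z}ᶜ s (Sum.inr q)

/-- a set of internal vertices and sinks is small if few vertices separate it from the sinks -/
def Exits (F : Frame) (m : ℕ → Vx) (φ : ℕ → ℕ) : Prop :=
  ∀ X : Finset Vx, (∀ x ∈ X, x ∈ F.inn ∨ x ∈ F.snk m) → ∀ S : Finset Vx,
    Sep (F.D m) (S : Set Vx) (X : Set Vx) (F.snk m) → X.card ≤ φ S.card

/-- a set of internal vertices and sources is small if few vertices separate it from the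
sources -/
def Feeds (F : Frame) (m : ℕ → Vx) (φ : ℕ → ℕ) : Prop :=
  ∀ X : Finset Vx, (∀ x ∈ X, x ∈ F.inn ∨ x ∈ F.src m) → ∀ S : Finset Vx,
    Sep (F.D m) (S : Set Vx) (F.src m) (X : Set Vx) → X.card ≤ φ S.card

/-- `M` has no smaller frame than `F` (first the number of vertices, then the number of edges) -/
def MinFrame (F : Frame) (M : Matroid ℕ) : Prop :=
  F.Rep M ∧ ∀ F' : Frame, F'.Rep M →
    F.V.card < F'.V.card ∨ (F.V.card = F'.V.card ∧ F.edges ≤ F'.edges)

end Frame

/-! ## Rigs: frames with two disjoint coloured sets of vertices and prescribed walks -/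

/-- `F` is a frame of `M` with a perfect matching `m` of base `B`, two disjoint sets `col true`
and `col false` of internal vertices, and whenever `R c s t` there is a walk from the real element
`s` to the real element `t` with internal vertices in `col c` -/
structure Rig (M : Matroid ℕ) (B : Set ℕ) (R : Bool → ℕ → ℕ → Prop) (F : Frame) (m : ℕ → Vx)
    (col : Bool → Set ℕ) : Prop where
  rep : F.Rep M
  pm : F.IsPM m
  base : F.base m = B
  disj : Disjoint (col true) (col false)
  hold : ∀ c s t, R c s t →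
    RIn (F.D m) (({Sum.inl s, Sum.inl t} : Set Vx) ∪ Sum.inr '' col c) (Sum.inl s) (Sum.inl t)

/-- a rig with the minimum number of internal vertices and, subject to this, the minimum number
of edges -/
def MinRig (M : Matroid ℕ) (B : Set ℕ) (R : Bool → ℕ → ℕ → Prop) (F : Frame) (m : ℕ → Vx)
    (col : Bool → Set ℕ) : Prop :=
  Rig M B R F m col ∧ ∀ (F' : Frame) (m' : ℕ → Vx) (col' : Bool → Set ℕ), Rig M B R F' m' col' →
    F.V.card < F'.V.card ∨ (F.V.card = F'.V.card ∧ F.edges ≤ F'.edges)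

/-! ## The class -/

/-- no minor `U(2,q+2)` -/
def NoLine (q : ℕ) (M : Matroid ℕ) : Prop :=
  ¬ ∃ N : Matroid ℕ, N.IsMinor M ∧ N.E.ncard = q + 2 ∧
    ∀ I : Set ℕ, N.Indep I ↔ (I ⊆ N.E ∧ I.ncard ≤ 2)

/-- no minor `U(q,q+2)` -/
def NoColine (q : ℕ) (M : Matroid ℕ) : Prop :=
  ¬ ∃ N : Matroid ℕ, N.IsMinor M ∧ N.E.ncard = q + 2 ∧
    ∀ I : Set ℕ, N.Indep I ↔ (I ⊆ N.E ∧ I.ncard ≤ q)

/-- finite matroids with a frame (gammoids) without `U(2,q+2)`- and `U(q,q+2)`-minors -/
def Gam (q : ℕ) (M : Matroid ℕ) : Prop :=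
  M.E.Finite ∧ (∃ F : Frame, F.Rep M) ∧ NoLine q M ∧ NoColine q M

/-- rank -/
noncomputable def rk (M : Matroid ℕ) (X : Set ℕ) : ℕ := (M.eRk X).toNat

/-- connectivity function -/
noncomputable def lam (M : Matroid ℕ) (X : Set ℕ) : ℕ := rk M X + rk M (M.E \ X) - rk M M.E

end Pool.Agent.H55.GW
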