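import Pool.Agent.H55.GW.Basic

/-!
# Stage 1 targets: frames and the expansion theorem T1
-/

set_option autoImplicit false

namespace Pool.Agent.H55.GW

/-! ## Block A: directed graphs -/

/-- MEN: Menger's theorem -/
def T_MEN : Prop := ∀ (W : Type) (D : W → W → Prop) (U : Set W), U.Finite →
  (∀ u v, D u v → u ∈ U ∧ v ∈ U) → ∀ X Y : Set W, X ⊆ U → Y ⊆ U → ∀ n : ℕ,
  (∀ S : Finset W, Sep D (S : Set W) X Y → n ≤ S.card) → Lnk D n X Y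

/-- SUBM: submodularity of minimum separators to a fixed target -/
def T_SUBM : Prop := ∀ (W : Type) (D : W → W → Prop) (K X X' : Set W), X.Finite → X'.Finite →
  cut D (X ∪ X') K + cut D (X ∩ X') K ≤ cut D X K + cut D X' K

/-- RAM: Ramsey's theorem for pairs -/
def T_RAM : Prop := ∀ c k : ℕ, ∃ N : ℕ, ∀ f : Fin N → Fin N → Fin c,
  ∃ g : Fin k → Fin N, StrictMono g ∧ ∃ a : Fin c, ∀ i j : Fin k, i < j → f (g i) (g j) = a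

/-! ## Block B: frames and matroids -/

/-- EXC: exchange along disjoint source-sink paths -/
def T_EXC : Prop := ∀ (F : Frame) (m : ℕ → Vx), F.IsPM m → ∀ (n : ℕ) (l : Fin n → List Vx)
  (a b : Fin n → ℕ), (∀ i, IsPath (F.D m) (l i) (Sum.inl (a i)) (Sum.inl (b i))) →
  (∀ i, a i ∈ F.E ∧ a i ∉ F.base m ∧ b i ∈ F.base m) →
  (∀ i j, i ≠ j → ∀ x ∈ l i, x ∉ l j) →
  ∃ m', F.IsPM m' ∧ F.base m' = (F.base m \ Set.range b) ∪ Set.range a ∧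
    ∀ x y, F.D m' x y ↔ (F.D m x y ∧ ¬ ∃ i, Nxt (l i) x y) ∨ ∃ i, Nxt (l i) y x

/-- LBC: two perfect matchings give a linkage -/
def T_LBC : Prop := ∀ (F : Frame) (m m' : ℕ → Vx), F.IsPM m → F.IsPM m' →
  ∃ n : ℕ, (F.base m' \ F.base m).ncard = n ∧ (F.base m \ F.base m').ncard = n ∧
    Lnk (F.D m) n (Sum.inl '' (F.base m' \ F.base m)) (Sum.inl '' (F.base m \ F.base m'))

/-- LB: base exchange means linkage -/
def T_LB : Prop := ∀ (F : Frame) (m : ℕ → Vx), F.IsPM m → ∀ X Y : Set ℕ,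
  X ⊆ (F.E : Set ℕ) \ F.base m → Y ⊆ F.base m → X.ncard = Y.ncard →
  ((∃ m', F.IsPM m' ∧ F.base m' = (F.base m \ Y) ∪ X) ↔
    Lnk (F.D m) X.ncard (Sum.inl '' X) (Sum.inl '' Y))

/-- REP: a frame with the same linkages has the same matroid -/
def T_REP : Prop := ∀ (F F' : Frame) (m m' : ℕ → Vx) (M : Matroid ℕ), F.Rep M → F.IsPM m →
  F'.IsPM m' → F'.E = F.E → F'.base m' = F.base m →
  (∀ (n : ℕ) (X Y : Set ℕ), X ⊆ (F.E : Set ℕ) \ F.base m → Y ⊆ F.base m → X.ncard = n →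
    Y.ncard = n → (Lnk (F.D m) n (Sum.inl '' X) (Sum.inl '' Y) ↔
      Lnk (F'.D m') n (Sum.inl '' X) (Sum.inl '' Y))) → F'.Rep M

/-- DUR: the dual frame -/
def T_DUR : Prop := ∀ (F : Frame) (M : Matroid ℕ), F.Rep M → F.dual.Rep M.dual

/-- DUG: the class is closed under duality -/
def T_DUG : Prop := ∀ (q : ℕ) (M : Matroid ℕ), Gam q M → Gam q M.dual

/-- DUM: minimal rigs are closed under duality -/
def T_DUM : Prop := ∀ (M : Matroid ℕ) (B : Set ℕ) (R : Bool → ℕ → ℕ → Prop) (F : Frame)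
  (m : ℕ → Vx) (col : Bool → Set ℕ), MinRig M B R F m col →
  MinRig M.dual (M.E \ B) (fun c s t => R c t s) F.dual m col

/-- LAMU: separators bound the connectivity function -/
def T_LAMU : Prop := ∀ (F : Frame) (M : Matroid ℕ) (m : ℕ → Vx), F.Rep M → F.IsPM m →
  ∀ Z : Set ℕ, Z ⊆ M.E → ∀ S₁ S₂ : Finset Vx,
  Sep (F.D m) (S₁ : Set Vx) (Sum.inl '' (Z \ F.base m)) (Sum.inl '' (F.base m \ Z)) →
  Sep (F.D m) (S₂ : Set Vx) (Sum.inl '' ((M.E \ Z) \ F.base m)) (Sum.inl '' (F.base m ∩ Z)) →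
  lam M Z ≤ S₁.card + S₂.card

/-- LAML: linkages bound the connectivity function from below -/
def T_LAML : Prop := ∀ (F : Frame) (M : Matroid ℕ) (m : ℕ → Vx), F.Rep M → F.IsPM m →
  ∀ Z : Set ℕ, Z ⊆ M.E → ∀ n₁ n₂ : ℕ,
  Lnk (F.D m) n₁ (Sum.inl '' (Z \ F.base m)) (Sum.inl '' (F.base m \ Z)) →
  Lnk (F.D m) n₂ (Sum.inl '' ((M.E \ Z) \ F.base m)) (Sum.inl '' (F.base m ∩ Z)) →
  n₁ + n₂ ≤ lam M Z

/-- MDEL: deletion of a real element outside the base -/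
def T_MDEL : Prop := ∀ (F : Frame) (M : Matroid ℕ) (m : ℕ → Vx) (e : ℕ), F.Rep M → F.IsPM m →
  e ∈ F.E → e ∉ F.base m → ∃ F' : Frame, F'.Rep (M.delete {e}) ∧ F'.IsPM m ∧
    F'.base m = F.base m ∧ F'.V ⊆ F.V ∧ ∀ x y, F'.D m x y ↔ (F.D m x y ∧ x ≠ Sum.inl e ∧
      y ≠ Sum.inl e ∧ ∀ v ∈ F.V, m v = Sum.inl e → x ≠ Sum.inr v ∧ y ≠ Sum.inr v)

/-- MCON: contraction of a real element of the base -/
def T_MCON : Prop := ∀ (F : Frame) (M : Matroid ℕ) (m : ℕ → Vx) (e : ℕ), F.Rep M → F.IsPM m →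
  e ∈ F.base m → ∃ F' : Frame, F'.Rep (M.contract {e}) ∧ F'.IsPM m ∧
    F'.base m = F.base m \ {e} ∧ F'.V ⊆ F.V ∧ ∀ x y, F'.D m x y ↔ (F.D m x y ∧ x ≠ Sum.inl e ∧
      y ≠ Sum.inl e ∧ ∀ v ∈ F.V, m v = Sum.inl e → x ≠ Sum.inr v ∧ y ≠ Sum.inr v)

/-- GMIN: the class is closed under minors -/
def T_GMIN : Prop := ∀ (q : ℕ) (M N : Matroid ℕ), Gam q M → N.IsMinor M → Gam q N

/-- KUNG: bounded rank, no long line, then boundedly many points -/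
def T_KUNG : Prop := ∀ q b : ℕ, ∃ ε : ℕ, ∀ M : Matroid ℕ, M.E.Finite → NoLine q M →
  ∀ X : Finset ℕ, (X : Set ℕ) ⊆ M.E → (∀ x ∈ X, ∀ y ∈ X, x ≠ y → M.Indep {x, y}) →
  M.eRk (X : Set ℕ) ≤ (b : ℕ∞) → X.card ≤ ε

/-- KUD: Kung's bound in the directed graph of a frame -/
def T_KUD : Prop := ∀ q b : ℕ, ∃ ε : ℕ, ∀ (M : Matroid ℕ) (F : Frame) (m : ℕ → Vx), Gam q M →
  F.Rep M → F.IsPM m → ∀ A : Finset ℕ, (∀ a ∈ A, a ∈ F.E ∧ a ∉ F.base m) →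
  ∀ Y : Finset ℕ, (∀ y ∈ Y, y ∈ F.base m) → Y.card ≤ b →
  (∀ a ∈ A, ∀ a' ∈ A, a ≠ a' → ∀ S : Finset Vx, S.card ≤ 1 →
    ¬ Sep (F.D m) (S : Set Vx) {Sum.inl a, Sum.inl a'} (Sum.inl '' (Y : Set ℕ))) → A.card ≤ ε

/-- CLO: two sources and many sinks -/
def T_CLO : Prop := ∀ q : ℕ, 1 < q → ∀ (M : Matroid ℕ) (F : Frame) (m : ℕ → Vx), Gam q M →
  F.Rep M → F.IsPM m → ∀ a a' : ℕ, a ≠ a' → a ∈ F.E → a ∉ F.base m → a' ∈ F.E →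
  a' ∉ F.base m → ∀ T : Finset ℕ, (∀ t ∈ T, t ∈ F.base m ∧
    RIn (F.D m) Set.univ (Sum.inl a) (Sum.inl t) ∧
    RIn (F.D m) Set.univ (Sum.inl a') (Sum.inl t)) → ∀ r : ℕ, (q - 1) * r < T.card →
  ∃ (y : Vx) (T' : Finset ℕ), T' ⊆ T ∧ r < T'.card ∧
    ∀ t ∈ T', Sep (F.D m) {y} {Sum.inl a, Sum.inl a'} {Sum.inl t}

/-- CLI: two sinks and many sources -/
def T_CLI : Prop := ∀ q : ℕ, 1 < q → ∀ (M : Matroid ℕ) (F : Frame) (m : ℕ → Vx), Gam q M →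
  F.Rep M → F.IsPM m → ∀ b b' : ℕ, b ≠ b' → b ∈ F.base m → b' ∈ F.base m →
  ∀ T : Finset ℕ, (∀ t ∈ T, t ∈ F.E ∧ t ∉ F.base m ∧
    RIn (F.D m) Set.univ (Sum.inl t) (Sum.inl b) ∧
    RIn (F.D m) Set.univ (Sum.inl t) (Sum.inl b')) → ∀ r : ℕ, (q - 1) * r < T.card →
  ∃ (y : Vx) (T' : Finset ℕ), T' ⊆ T ∧ r < T'.card ∧
    ∀ t ∈ T', Sep (F.D m) {y} {Sum.inl t} {Sum.inl b, Sum.inl b'}

/-- FRO: gammoids of the frozen statement have frames -/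
def T_FRO : Prop := ∀ M : Matroid ℕ, (∃ N : Matroid ℕ, N.Finite ∧
  (∃ r : ℕ, ∃ A : Fin r → Set ℕ, ∀ I : Set ℕ,
    N.Indep I ↔ (I ⊆ N.E ∧ ∃ f : ℕ → Fin r, Set.InjOn f I ∧ ∀ x ∈ I, x ∈ A (f x))) ∧
  M.E ⊆ N.E ∧ M = N.dual.restrict M.E) → ∃ F : Frame, F.Rep M

/-! ## Block C: the expansion theorem -/

/-- there is a rig with fewer vertices -/
def Smaller (M : Matroid ℕ) (B : Set ℕ) (R : Bool → ℕ → ℕ → Prop) (F : Frame) : Prop :=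
  ∃ (F' : Frame) (m' : ℕ → Vx) (col' : Bool → Set ℕ), Rig M B R F' m' col' ∧
    F'.V.card < F.V.card

/-- R0: a vertex of class `P` that reaches no sink can be removed -/
def T_R0 : Prop := ∀ (M : Matroid ℕ) (B : Set ℕ) (R : Bool → ℕ → ℕ → Prop) (F : Frame)
  (m : ℕ → Vx) (col : Bool → Set ℕ), Rig M B R F m col → ∀ p ∈ F.V, F.isP p →
  (∀ t ∈ F.snk m, ¬ RIn (F.D m) Set.univ (Sum.inr p) t) → Smaller M B R F

/-- R1: a vertex of class `P` all of whose walks to the sinks pass through one vertex of class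
`Q` can be removed -/
def T_R1 : Prop := ∀ (M : Matroid ℕ) (B : Set ℕ) (R : Bool → ℕ → ℕ → Prop) (F : Frame)
  (m : ℕ → Vx) (col : Bool → Set ℕ), Rig M B R F m col → ∀ p ∈ F.V, F.isP p →
  (∃ t ∈ F.snk m, RIn (F.D m) Set.univ (Sum.inr p) t) → ∀ q ∈ F.V, ¬ F.isP q →
  Sep (F.D m) {Sum.inr q} {Sum.inr p} (F.snk m) → Smaller M B R F

/-- R2: a vertex of class `P`, matched to an internal vertex, all of whose walks to the sinks end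
at a real element hanging at it, can be removed -/
def T_R2 : Prop := ∀ (M : Matroid ℕ) (B : Set ℕ) (R : Bool → ℕ → ℕ → Prop) (F : Frame)
  (m : ℕ → Vx) (col : Bool → Set ℕ), Rig M B R F m col → ∀ p ∈ F.V, F.isP p →
  ∀ q : ℕ, m p = Sum.inr q → ∀ e ∈ F.base m, F.att e p →
  Sep (F.D m) {Sum.inl e} {Sum.inr p} (F.snk m) → Smaller M B R F

/-- FAN -/
def T_FAN : Prop := ∀ (M : Matroid ℕ) (B : Set ℕ) (R : Bool → ℕ → ℕ → Prop) (F : Frame)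
  (m : ℕ → Vx) (col : Bool → Set ℕ), MinRig M B R F m col → F.Fan m

/-- COF -/
def T_COF : Prop := ∀ (M : Matroid ℕ) (B : Set ℕ) (R : Bool → ℕ → ℕ → Prop) (F : Frame)
  (m : ℕ → Vx) (col : Bool → Set ℕ), MinRig M B R F m col → F.CoFan m

/-- HEAD: the heads lemma -/
def T_HEAD : Prop := ∀ (W : Type) (D : W → W → Prop) (G K : Set W), G.Finite → K.Finite →
  ∀ (n : ℕ) (y : Fin n → W) (C : Fin n → Finset W),
  (∀ i, y i ∈ G ∧ (C i : Set W) ⊆ G) →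
  (∀ i, Lnk (fun u v => D u v ∧ u ∈ G ∧ v ∈ G ∪ K) ((C i).card + 1)
    (insert (y i) (C i : Set W)) K) →
  (∀ i j, i < j → Sep (fun u v => D u v ∧ u ∈ G ∧ v ∈ G ∪ K) (C i : Set W) {y j} K) →
  n ≤ K.ncard

/-- EA: boundedly many essential arcs from `H \ G` to `G` -/
def T_EA : Prop := ∀ k : ℕ, ∃ N : ℕ, ∀ (W : Type) (D : W → W → Prop) (U A₀ B₀ G H : Set W)
  (T : Finset W), U.Finite → (∀ u v, D u v → u ∈ U ∧ v ∈ U) → A₀ ⊆ U → B₀ ⊆ U → H ⊆ U →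
  T.card ≤ k → G ⊆ H → Disjoint H (T : Set W) → Disjoint H A₀ → Disjoint H B₀ →
  (∀ u v, u ∈ G → D u v → v ∈ G ∨ v ∈ T) → (∀ u v, v ∈ H → D u v → u ∈ H ∨ u ∈ T) →
  ∀ (n : ℕ) (x y : Fin n → W), (∀ i, x i ∈ H ∧ x i ∉ G ∧ y i ∈ G ∧ D (x i) (y i)) →
  (∀ i j, i ≠ j → (x i, y i) ≠ (x j, y j)) →
  (∀ i, ∃ (s : ℕ) (X Y : Set W), X ⊆ A₀ ∧ Y ⊆ B₀ ∧ Lnk D s X Y ∧
    ¬ Lnk (fun u v => D u v ∧ ¬ (u = x i ∧ v = y i)) s X Y) → n ≤ N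

/-- `R₀ ∪ T` has a perfect matching all of whose edges have an end in `R₀` -/
def Cov (F : Frame) (R₀ : Finset ℕ) (T : Set ℕ) : Prop :=
  ∃ μ : ℕ → ℕ, ∀ v, (v ∈ R₀ ∨ v ∈ T) → (μ v ∈ R₀ ∨ μ v ∈ T) ∧ μ (μ v) = v ∧
    (F.adj v (μ v) ∨ F.adj (μ v) v) ∧ (v ∈ R₀ ∨ μ v ∈ R₀)

/-- a region without real elements, closed under the matching, with boundary `b` -/
structure Region (F : Frame) (m : ℕ → Vx) (R₀ : Finset ℕ) {k : ℕ} (b : Fin k → ℕ) : Prop where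
  sub : R₀ ⊆ F.V
  leafless : ∀ e v, F.att e v → v ∉ R₀
  closed : ∀ v ∈ R₀, ∃ u ∈ R₀, m v = Sum.inr u
  binj : Function.Injective b
  bmem : ∀ i, b i ∈ F.V ∧ b i ∉ R₀
  bcov : ∀ v ∈ R₀, ∀ u, (F.adj u v ∨ F.adj v u) → u ∈ R₀ ∨ ∃ i, u = b i

/-- the type of a region: classes of the boundary vertices, sets of boundary vertices that can be
covered from the region, and walks through the coloured parts of the region -/
def RegTy (F : Frame) (m : ℕ → Vx) (col : Bool → Set ℕ) (R₀ : Finset ℕ) {k : ℕ}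
    (b : Fin k → ℕ) : (Fin k → Prop) × Set (Set (Fin k)) × (Bool → Fin k → Fin k → Prop) :=
  (fun i => F.isP (b i), {J | Cov F R₀ (b '' J)}, fun c i j => ∃ u v,
    F.D m (Sum.inr (b i)) (Sum.inr u) ∧
    RIn (F.D m) (Sum.inr '' {w | w ∈ R₀ ∧ w ∈ col c}) (Sum.inr u) (Sum.inr v) ∧
    F.D m (Sum.inr v) (Sum.inr (b j)))

/-- GLU: a region can be replaced by a region of the same type -/
def T_GLU : Prop := ∀ (M : Matroid ℕ) (B : Set ℕ) (R : Bool → ℕ → ℕ → Prop) (F : Frame)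
  (m : ℕ → Vx) (col : Bool → Set ℕ), Rig M B R F m col →
  ∀ (k : ℕ) (R₀ : Finset ℕ) (b : Fin k → ℕ), Region F m R₀ b →
  ∀ (F₂ : Frame) (m₂ : ℕ → Vx) (col₂ : Bool → Set ℕ) (R₂ : Finset ℕ) (b₂ : Fin k → ℕ),
  F₂.IsPM m₂ → Disjoint (col₂ true) (col₂ false) → Region F₂ m₂ R₂ b₂ →
  RegTy F m col R₀ b = RegTy F₂ m₂ col₂ R₂ b₂ →
  ∃ (F' : Frame) (m' : ℕ → Vx) (col' : Bool → Set ℕ), Rig M B R F' m' col' ∧
    F'.V.card + R₀.card = F.V.card + R₂.card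

/-- RR: regions with small boundary are small in minimal rigs -/
def T_RR : Prop := ∀ k : ℕ, ∃ g : ℕ, ∀ (M : Matroid ℕ) (B : Set ℕ) (R : Bool → ℕ → ℕ → Prop)
  (F : Frame) (m : ℕ → Vx) (col : Bool → Set ℕ), MinRig M B R F m col →
  ∀ R₀ T : Finset ℕ, R₀ ⊆ F.V → (∀ e v, F.att e v → v ∉ R₀) →
  (∀ v ∈ R₀, ∃ u ∈ R₀, m v = Sum.inr u) → T.card ≤ k →
  (∀ v ∈ R₀, ∀ u, (F.adj u v ∨ F.adj v u) → u ∈ R₀ ∨ u ∈ T) → R₀.card ≤ g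

/-- ARC: boundedly many arcs from `H \ G` to `G` in minimal rigs -/
def T_ARC : Prop := ∀ k : ℕ, ∃ N : ℕ, ∀ (M : Matroid ℕ) (B : Set ℕ) (R : Bool → ℕ → ℕ → Prop)
  (F : Frame) (m : ℕ → Vx) (col : Bool → Set ℕ), MinRig M B R F m col →
  ∀ (T : Finset ℕ) (G H : Set ℕ), T.card ≤ k → G ⊆ H → (∀ v ∈ H, v ∈ F.V ∧ v ∉ T) →
  (∀ u ∈ G, ∀ y, F.D m (Sum.inr u) y → ∃ w, (w ∈ G ∨ w ∈ T) ∧ y = Sum.inr w) →
  (∀ v ∈ H, ∀ x, F.D m x (Sum.inr v) → ∃ w, (w ∈ H ∨ w ∈ T) ∧ x = Sum.inr w) →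
  {p : ℕ × ℕ | F.adj p.1 p.2 ∧ m p.1 ≠ Sum.inr p.2 ∧ p.1 ∈ H ∧ p.1 ∉ G ∧ p.2 ∈ G}.ncard ≤ N

/-- FUN: the non-exceptional vertices of class `P` behind a small separator have a small
separator from the sources -/
def T_FUN : Prop := ∀ q : ℕ, 1 < q → ∀ b : ℕ, ∃ ε : ℕ, ∀ (M : Matroid ℕ) (B : Set ℕ)
  (R : Bool → ℕ → ℕ → Prop) (F : Frame) (m : ℕ → Vx) (col : Bool → Set ℕ), Gam q M →
  MinRig M B R F m col → ∀ (X : Set Vx) (S : Finset Vx), X ⊆ F.uni →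
  Sep (F.D m) (S : Set Vx) X (F.snk m) →
  (∀ S' : Finset Vx, Sep (F.D m) (S' : Set Vx) X (F.snk m) → S.card ≤ S'.card) → S.card ≤ b →
  ∃ K : Finset Vx, K.card ≤ ε ∧ Sep (F.D m) (K : Set Vx) (F.src m)
    {x | ∃ p ∈ F.V, F.isP p ∧ ¬ F.Exc p ∧ x = Sum.inr p ∧ x ∉ S ∧
      Sep (F.D m) (S : Set Vx) {x} (F.snk m)}

/-- T1P: expansion for vertices of class `P` and the matching of the rig -/
def T_T1P : Prop := ∀ q : ℕ, 1 < q → ∃ φ : ℕ → ℕ, Monotone φ ∧ ∀ (M : Matroid ℕ) (B : Set ℕ)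
  (R : Bool → ℕ → ℕ → Prop) (F : Frame) (m : ℕ → Vx) (col : Bool → Set ℕ), Gam q M →
  MinRig M B R F m col → ∀ X : Finset ℕ, (∀ p ∈ X, p ∈ F.V ∧ F.isP p) → ∀ S : Finset Vx,
  Sep (F.D m) (S : Set Vx) (Sum.inr '' (X : Set ℕ)) (F.snk m) → X.card ≤ φ S.card

/-- EXP: expansion does not depend on the matching -/
def T_EXP : Prop := ∀ (F : Frame) (m m' : ℕ → Vx) (φ : ℕ → ℕ), Monotone φ → F.IsPM m →
  F.IsPM m' → (∀ X : Finset ℕ, (∀ p ∈ X, p ∈ F.V ∧ F.isP p) → ∀ S : Finset Vx,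
    Sep (F.D m) (S : Set Vx) (Sum.inr '' (X : Set ℕ)) (F.snk m) → X.card ≤ φ S.card) →
  ∀ X : Finset ℕ, (∀ p ∈ X, p ∈ F.V ∧ F.isP p) → ∀ S : Finset Vx,
    Sep (F.D m') (S : Set Vx) (Sum.inr '' (X : Set ℕ)) (F.snk m') → X.card ≤ φ S.card + S.card

/-- EXT: from vertices of class `P` to all internal vertices and sinks -/
def T_EXT : Prop := ∀ (F : Frame) (m : ℕ → Vx) (φ : ℕ → ℕ), F.IsPM m →
  (∀ X : Finset ℕ, (∀ p ∈ X, p ∈ F.V ∧ F.isP p) → ∀ S : Finset Vx,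
    Sep (F.D m) (S : Set Vx) (Sum.inr '' (X : Set ℕ)) (F.snk m) → X.card ≤ φ S.card) →
  F.Exits m (fun b => 2 * φ b + 3 * b)

/-- T1: the expansion theorem -/
def T_T1 : Prop := ∀ q : ℕ, 1 < q → ∃ φ : ℕ → ℕ, Monotone φ ∧ ∀ (M : Matroid ℕ) (B : Set ℕ)
  (R : Bool → ℕ → ℕ → Prop) (F : Frame) (m : ℕ → Vx) (col : Bool → Set ℕ), Gam q M →
  MinRig M B R F m col → ∀ m', F.IsPM m' → F.Exits m' φ ∧ F.Feeds m' φ

/-- GF: every matroid of the class has a good frame -/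
def T_GF : Prop := ∀ q : ℕ, 1 < q → ∃ φ : ℕ → ℕ, Monotone φ ∧ ∀ M : Matroid ℕ, Gam q M →
  ∃ F : Frame, F.Rep M ∧ ∀ m, F.IsPM m → F.Exits m φ ∧ F.Feeds m φ ∧ F.Fan m ∧ F.CoFan m

end Pool.Agent.H55.GW
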