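import Pool.Agent.H55.GW.Targets1

/-!
# Stage 2 targets: two disjoint rooted trees (UTC) and bounded branch-width (BW)
-/

set_option autoImplicit false

namespace Pool.Agent.H55.GW

/-- MR: existence of minimal rigs -/
def T_MR : Prop := ∀ (M : Matroid ℕ) (B : Set ℕ) (R : Bool → ℕ → ℕ → Prop) (F : Frame)
  (m : ℕ → Vx) (col : Bool → Set ℕ), Rig M B R F m col →
  ∃ (F' : Frame) (m' : ℕ → Vx) (col' : Bool → Set ℕ), MinRig M B R F' m' col'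

/-- the frame `F` is good for `φ` -/
def Good (F : Frame) (φ : ℕ → ℕ) : Prop := ∀ m, F.IsPM m → F.Exits m φ ∧ F.Feeds m φ

/-- two disjoint coloured sets `V₁`, `V₂` such that `aᵢ` reaches all elements of `Pᵢ` inside
`Vᵢ` -/
structure RTP (F : Frame) (m : ℕ → Vx) (a₁ a₂ : ℕ) (V₁ V₂ P₁ P₂ : Set ℕ) : Prop where
  ne : a₁ ≠ a₂
  src₁ : a₁ ∈ F.E ∧ a₁ ∉ F.base m
  src₂ : a₂ ∈ F.E ∧ a₂ ∉ F.base m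
  snk₁ : P₁ ⊆ F.base m
  snk₂ : P₂ ⊆ F.base m
  dP : Disjoint P₁ P₂
  dV : Disjoint V₁ V₂
  walk₁ : ∀ p ∈ P₁, RIn (F.D m) (({Sum.inl a₁, Sum.inl p} : Set Vx) ∪ Sum.inr '' V₁)
    (Sum.inl a₁) (Sum.inl p)
  walk₂ : ∀ p ∈ P₂, RIn (F.D m) (({Sum.inl a₂, Sum.inl p} : Set Vx) ∪ Sum.inr '' V₂)
    (Sum.inl a₂) (Sum.inl p)

/-- an out-tree with root `a`, leaves `P` and inner vertices `N`, given by the parent function -/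
structure OTree (D : Vx → Vx → Prop) (a : Vx) (P N : Set Vx) (par : Vx → Vx) : Prop where
  ha : a ∉ N ∧ a ∉ P
  hNP : Disjoint N P
  fix : par a = a
  arc : ∀ v, (v ∈ N ∨ v ∈ P) → (par v ∈ N ∨ par v = a) ∧ D (par v) v
  root : ∀ v, (v ∈ N ∨ v ∈ P) → ∃ k, par^[k] v = a
  below : ∀ v ∈ N, ∃ p ∈ P, ∃ k, par^[k] p = v

/-- LO: few vertices are reached from both of two disjoint rooted sets -/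
def T_LO : Prop := ∀ q : ℕ, 1 < q → ∀ φ : ℕ → ℕ, Monotone φ → ∀ c : ℕ, ∃ K : ℕ,
  ∀ (M : Matroid ℕ) (F : Frame) (m : ℕ → Vx), Gam q M → F.Rep M → F.IsPM m → F.Exits m φ →
  ∀ a₁ a₂ : ℕ, a₁ ≠ a₂ → a₁ ∈ F.E → a₁ ∉ F.base m → a₂ ∈ F.E → a₂ ∉ F.base m →
  ∀ T₁ T₂ : Set Vx, Disjoint T₁ T₂ → ∀ (n : ℕ) (w : Fin n → Vx), Function.Injective w →
  (∀ i, w i ∈ F.inn ∨ w i ∈ F.snk m) → ∀ S₁ S₂ : Fin n → Set Vx,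
  (∀ i, RIn (F.D m) (T₁ ∪ S₁ i) (Sum.inl a₁) (w i)) →
  (∀ i, RIn (F.D m) (T₂ ∪ S₂ i) (Sum.inl a₂) (w i)) →
  (∀ x, {i | x ∈ S₁ i}.ncard ≤ c) → (∀ x, {i | x ∈ S₂ i}.ncard ≤ c) → n ≤ K

/-- OT: out-trees from walks -/
def T_OT : Prop := ∀ (D : Vx → Vx → Prop) (a : Vx) (V P : Set Vx), V.Finite → P.Finite → a ∉ V →
  a ∉ P → Disjoint V P → (∀ p ∈ P, RIn D (({a, p} : Set Vx) ∪ V) a p) →
  ∃ (N : Set Vx) (par : Vx → Vx), N ⊆ V ∧ OTree D a P N par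

/-- vertex set of a tree -/
def trS (a : ℕ) (P : Set ℕ) (N : Set Vx) : Set Vx := {Sum.inl a} ∪ N ∪ Sum.inl '' P

/-- two disjoint trees in the directed graph of a matching -/
structure Two (F : Frame) (m : ℕ → Vx) (a₁ a₂ : ℕ) (P₁ P₂ : Set ℕ) (N₁ N₂ : Set Vx)
    (par₁ par₂ : Vx → Vx) : Prop where
  ne : a₁ ≠ a₂
  src₁ : a₁ ∈ F.E ∧ a₁ ∉ F.base m
  src₂ : a₂ ∈ F.E ∧ a₂ ∉ F.base m
  snk₁ : P₁ ⊆ F.base m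
  snk₂ : P₂ ⊆ F.base m
  dP : Disjoint P₁ P₂
  dN : Disjoint N₁ N₂
  inn₁ : N₁ ⊆ F.inn
  inn₂ : N₂ ⊆ F.inn
  tr₁ : OTree (F.D m) (Sum.inl a₁) (Sum.inl '' P₁) N₁ par₁
  tr₂ : OTree (F.D m) (Sum.inl a₂) (Sum.inl '' P₂) N₂ par₂

/-- LIC: few disjoint clean bundles into two disjoint trees -/
def T_LIC : Prop := ∀ q : ℕ, 1 < q → ∀ φ : ℕ → ℕ, Monotone φ → ∃ K : ℕ,
  ∀ (M : Matroid ℕ) (F : Frame) (m : ℕ → Vx), Gam q M → F.Rep M → Good F φ → F.IsPM m →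
  ∀ (a₁ a₂ : ℕ) (P₁ P₂ : Set ℕ) (N₁ N₂ : Set Vx) (par₁ par₂ : Vx → Vx),
  Two F m a₁ a₂ P₁ P₂ N₁ N₂ par₁ par₂ →
  ∀ (n : ℕ) (α : Fin n → ℕ) (w d₁ d₂ : Fin n → Vx) (σ R₁ R₂ : Fin n → Set Vx),
  (∀ i, α i ∈ F.E ∧ α i ∉ F.base m ∧ RIn (F.D m) (σ i) (Sum.inl (α i)) (w i) ∧
    RIn (F.D m) (R₁ i) (w i) (d₁ i) ∧ RIn (F.D m) (R₂ i) (w i) (d₂ i) ∧
    d₁ i ∈ trS a₁ P₁ N₁ ∧ d₂ i ∈ trS a₂ P₂ N₂) →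
  (∀ i, ∀ x ∈ trS a₁ P₁ N₁ ∪ trS a₂ P₂ N₂, x ∉ σ i ∧ (x ∈ R₁ i → x = d₁ i) ∧
    (x ∈ R₂ i → x = d₂ i)) →
  (∀ i j, i ≠ j → Disjoint (σ i ∪ R₁ i ∪ R₂ i) (σ j ∪ R₁ j ∪ R₂ j)) → n ≤ K

/-- LI: few vertices are linked to both of two disjoint trees -/
def T_LI : Prop := ∀ q : ℕ, 1 < q → ∀ φ : ℕ → ℕ, Monotone φ → ∃ K : ℕ,
  ∀ (M : Matroid ℕ) (F : Frame) (m : ℕ → Vx), Gam q M → F.Rep M → Good F φ → F.IsPM m →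
  ∀ (a₁ a₂ : ℕ) (P₁ P₂ : Set ℕ) (N₁ N₂ : Set Vx) (par₁ par₂ : Vx → Vx),
  Two F m a₁ a₂ P₁ P₂ N₁ N₂ par₁ par₂ →
  ∀ (n : ℕ) (w d₁ d₂ : Fin n → Vx) (R₁ R₂ : Fin n → Set Vx), (∀ i, w i ∈ F.inn ∧
    RIn (F.D m) (R₁ i) (w i) (d₁ i) ∧ RIn (F.D m) (R₂ i) (w i) (d₂ i) ∧
    d₁ i ∈ trS a₁ P₁ N₁ ∧ d₂ i ∈ trS a₂ P₂ N₂) →
  (∀ i j, i ≠ j → Disjoint (R₁ i) (R₁ j)) → (∀ i j, i ≠ j → Disjoint (R₂ i) (R₂ j)) → n ≤ K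

/-- SX: a small set of vertices whose removal makes nothing reachable from both sets -/
def T_SX : Prop := ∀ (W : Type) (D : W → W → Prop) (U : Set W), U.Finite →
  (∀ u v, D u v → u ∈ U ∧ v ∈ U) → ∀ T₁ T₂ Q : Set W, T₁ ⊆ U → T₂ ⊆ U → Q ⊆ U → ∀ K : ℕ,
  (∀ X : Finset W, (X : Set W) ⊆ Q → Lnk D X.card T₁ X → Lnk D X.card T₂ X → X.card ≤ K) →
  ∃ S : Finset W, S.card ≤ 2 * K ∧ ∀ v ∈ Q, v ∉ S →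
    ¬ ((∃ s ∈ T₁, RIn D (S : Set W)ᶜ s v) ∧ ∃ s ∈ T₂, RIn D (S : Set W)ᶜ s v)

/-- LMS: basic properties of the connectivity function -/
def T_LMS : Prop := ∀ M : Matroid ℕ, M.E.Finite →
  (∀ X ⊆ M.E, lam M (M.E \ X) = lam M X) ∧
  (∀ X ⊆ M.E, ∀ Y ⊆ M.E, lam M (X ∪ Y) + lam M (X ∩ Y) ≤ lam M X + lam M Y) ∧
  lam M ∅ = 0 ∧ (∀ X ⊆ M.E, lam M X ≤ M.E.ncard) ∧
  (∀ e ∈ M.E, ∀ X ⊆ M.E \ {e}, lam (M.delete {e}) X ≤ lam M X ∧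
    lam (M.contract {e}) X ≤ lam M X) ∧
  (∀ e ∈ M.E, ∀ Y ⊆ M.E \ {e}, lam (M.delete {e}) Y = lam M Y →
    ∀ X ⊆ Y, lam (M.delete {e}) X = lam M X) ∧
  (∀ e ∈ M.E, ∀ Y ⊆ M.E \ {e}, lam (M.contract {e}) Y = lam M Y →
    ∀ X ⊆ Y, lam (M.contract {e}) X = lam M X)

/-- UNC: uncrossing deletion and contraction -/
def T_UNC : Prop := ∀ M : Matroid ℕ, M.E.Finite → ∀ e ∈ M.E, ∀ X ⊆ M.E \ {e}, ∀ Y ⊆ M.E \ {e},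
  lam M (X ∩ Y) + lam M (insert e (X ∪ Y)) ≤
    lam (M.delete {e}) X + lam (M.contract {e}) Y + 1

/-- TUT: Tutte's linking lemma, one element -/
def T_TUT : Prop := ∀ M : Matroid ℕ, M.E.Finite → ∀ e ∈ M.E, ∀ (P₁ P₂ : Set ℕ) (k : ℕ),
  P₁ ⊆ M.E \ {e} → P₂ ⊆ M.E \ {e} →
  (∃ Z ⊆ M.E \ {e}, P₁ ⊆ Z ∧ Disjoint P₂ Z ∧ lam (M.delete {e}) Z ≤ k) →
  (∃ Z ⊆ M.E \ {e}, P₁ ⊆ Z ∧ Disjoint P₂ Z ∧ lam (M.contract {e}) Z ≤ k) →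
  ∃ Z ⊆ M.E, P₁ ⊆ Z ∧ Disjoint P₂ Z ∧ lam M Z ≤ k

/-- prescribed walks: from `a₁` to `P₁` in the first colour, from `a₂` to `P₂` in the second -/
def RR2 (a₁ a₂ : ℕ) (P₁ P₂ : Set ℕ) : Bool → ℕ → ℕ → Prop := fun c s t =>
  (c = true ∧ s = a₁ ∧ t ∈ P₁) ∨ (c = false ∧ s = a₂ ∧ t ∈ P₂)

/-- `M` has a rig with walks from `aᵢ` to `Pᵢ`, and `P₁`, `P₂` are highly connected in `M` -/
def BadRT (Γ : ℕ) (M : Matroid ℕ) (a₁ a₂ : ℕ) (P₁ P₂ : Set ℕ) : Prop :=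
  ∃ (B : Set ℕ) (F : Frame) (m : ℕ → Vx) (col : Bool → Set ℕ),
    Rig M B (RR2 a₁ a₂ P₁ P₂) F m col ∧ P₁ ⊆ B ∧ P₂ ⊆ B ∧ a₁ ∈ M.E \ B ∧ a₂ ∈ M.E \ B ∧
      ∀ Z ⊆ M.E, P₁ ⊆ Z → Disjoint P₂ Z → Γ < lam M Z

/-- STR: in a minor-minimal bad matroid every walk between the other real elements meets the
coloured vertices -/
def T_STR : Prop := ∀ (Γ : ℕ) (M : Matroid ℕ) (a₁ a₂ : ℕ) (P₁ P₂ : Set ℕ), a₁ ≠ a₂ →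
  Disjoint P₁ P₂ → (∀ Z ⊆ M.E, P₁ ⊆ Z → Disjoint P₂ Z → Γ < lam M Z) →
  (∀ e ∈ M.E, ¬ BadRT Γ (M.delete {e}) a₁ a₂ P₁ P₂ ∧ ¬ BadRT Γ (M.contract {e}) a₁ a₂ P₁ P₂) →
  ∀ (B : Set ℕ) (F : Frame) (m : ℕ → Vx) (col : Bool → Set ℕ),
  Rig M B (RR2 a₁ a₂ P₁ P₂) F m col → P₁ ⊆ B → P₂ ⊆ B → a₁ ∈ M.E \ B → a₂ ∈ M.E \ B →
  ∀ e ∈ M.E, e ∉ B → e ≠ a₁ → e ≠ a₂ → ∀ b ∈ B, b ∉ P₁ → b ∉ P₂ →
  ¬ RIn (F.D m) (Sum.inr '' (col true ∪ col false))ᶜ (Sum.inl e) (Sum.inl b)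

/-- UTC: two disjoint rooted trees have bounded connectivity -/
def T_UTC : Prop := ∀ q : ℕ, 1 < q → ∃ Γ : ℕ, ∀ (M : Matroid ℕ) (F : Frame) (m : ℕ → Vx)
  (a₁ a₂ : ℕ) (V₁ V₂ P₁ P₂ : Set ℕ), Gam q M → F.Rep M → F.IsPM m →
  RTP F m a₁ a₂ V₁ V₂ P₁ P₂ → ∃ Z ⊆ M.E, P₁ ⊆ Z ∧ Disjoint P₂ Z ∧ lam M Z ≤ Γ

/-- CC: a separation of bounded order gives a bounded vertex separator of the frame -/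
def T_CC : Prop := ∀ q : ℕ, 1 < q → ∀ φ : ℕ → ℕ, Monotone φ → ∀ t : ℕ, ∃ n : ℕ,
  ∀ (M : Matroid ℕ) (F : Frame), Gam q M → F.Rep M → Good F φ → ∀ Z ⊆ M.E, lam M Z ≤ t →
  ∃ (L : Set Vx) (S : Finset ℕ), S.card ≤ n ∧ (∀ e ∈ M.E, Sum.inl e ∈ L ↔ e ∈ Z) ∧
    ∀ x y, F.G x y → x ∈ L → y ∉ L → ∃ s ∈ S, x = Sum.inr s ∨ y = Sum.inr s

/-- UTU: two disjoint rooted trees have few disjoint undirected connections -/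
def T_UTU : Prop := ∀ q : ℕ, 1 < q → ∀ φ : ℕ → ℕ, Monotone φ → ∃ Γ : ℕ, ∀ (M : Matroid ℕ)
  (F : Frame) (m : ℕ → Vx) (a₁ a₂ : ℕ) (V₁ V₂ P₁ P₂ : Set ℕ), Gam q M → F.Rep M → Good F φ →
  F.IsPM m → RTP F m a₁ a₂ V₁ V₂ P₁ P₂ →
  ∀ n : ℕ, Lnk F.G n (Sum.inl '' P₁) (Sum.inl '' P₂) → n ≤ Γ

/-! ## Branch-width -/

/-- rooted binary trees -/
inductive BT where
  | leaf (e : ℕ) : BT
  | node (l r : BT) : BT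

/-- the set of leaves -/
def BT.set : BT → Set ℕ
  | .leaf e => {e}
  | .node l r => l.set ∪ r.set

/-- all subtrees have disjoint children and `f`-value at most `k` -/
def BT.Ok (f : Set ℕ → ℕ) (k : ℕ) : BT → Prop
  | .leaf e => f {e} ≤ k
  | .node l r => f (l.set ∪ r.set) ≤ k ∧ Disjoint l.set r.set ∧ l.Ok f k ∧ r.Ok f k

/-- `X` is `k`-branched -/
def Brd (f : Set ℕ → ℕ) (k : ℕ) (X : Set ℕ) : Prop := ∃ t : BT, t.Ok f k ∧ t.set = X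

/-- TIT: titanic sets -/
def T_TIT : Prop := ∀ (E : Set ℕ) (f : Set ℕ → ℕ) (k ℓ : ℕ), (∀ X ⊆ E, f (E \ X) = f X) →
  (∀ X ⊆ E, ∀ Y ⊆ E, f (X ∪ Y) + f (X ∩ Y) ≤ f X + f Y) → f ∅ = 0 → Brd f k E →
  ∀ X ⊆ E, f X ≤ ℓ → ℓ ≤ k → (∀ X₁ X₂ X₃ : Set ℕ, X₁ ∪ X₂ ∪ X₃ = X → Disjoint X₁ X₂ →
    Disjoint X₁ X₃ → Disjoint X₂ X₃ → ℓ ≤ f X₁ ∨ ℓ ≤ f X₂ ∨ ℓ ≤ f X₃) → (E \ X).Nonempty →
  Brd f k (E \ X)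

/-- the bound for small sides -/
def fEX : ℕ → ℕ
  | 0 => 0
  | n + 1 => 9 * fEX n + 2

/-- EX: minor-minimal matroids that are not `k`-branched are highly connected -/
def T_EX : Prop := ∀ (M : Matroid ℕ) (k : ℕ), M.E.Finite → M.E.Nonempty →
  ¬ Brd (lam M) k M.E → (∀ e ∈ M.E, (M.E \ {e}).Nonempty →
    Brd (lam (M.delete {e})) k (M.E \ {e}) ∧ Brd (lam (M.contract {e})) k (M.E \ {e})) →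
  ∀ X ⊆ M.E, lam M X ≤ k → X.ncard ≤ fEX (lam M X) ∨ (M.E \ X).ncard ≤ fEX (lam M X)

/-- no two disjoint rooted trees with at least `N` leaves each -/
def NoRT (F : Frame) (m : ℕ → Vx) (N : ℕ) : Prop :=
  ∀ (a₁ a₂ : ℕ) (V₁ V₂ P₁ P₂ : Set ℕ), RTP F m a₁ a₂ V₁ V₂ P₁ P₂ → P₁.ncard < N ∨ P₂.ncard < N

/-- BIG: at most one vertex of class `P` of large out-degree -/
def T_BIG : Prop := ∀ q : ℕ, 1 < q → ∀ φ : ℕ → ℕ, Monotone φ → ∀ N : ℕ, ∃ d : ℕ,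
  ∀ (M : Matroid ℕ) (F : Frame) (m : ℕ → Vx), Gam q M → F.Rep M → F.IsPM m → F.Exits m φ →
  F.CoFan m → NoRT F m N → ∀ p₁ ∈ F.V, ∀ p₂ ∈ F.V, F.isP p₁ → F.isP p₂ → p₁ ≠ p₂ →
  {x | F.D m (Sum.inr p₁) x}.ncard ≤ d ∨ {x | F.D m (Sum.inr p₂) x}.ncard ≤ d

/-- a comb: a directed path from `a` through `v 0, …, v (n-1)` (segments `Seg i`) with disjoint
exits `Ex i` from `v i` to `t i` -/
structure Comb (D : Vx → Vx → Prop) (T : Set Vx) (n : ℕ) (a : Vx) (v t : ℕ → Vx)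
    (Seg Ex : ℕ → Set Vx) : Prop where
  start : 0 < n → RIn D (Seg 0) a (v 0)
  step : ∀ i, i + 1 < n → RIn D (insert (v i) (Seg (i + 1))) (v i) (v (i + 1))
  mem : ∀ i < n, v i ∈ Seg i
  seg : ∀ i < n, ∀ u ∈ Seg i, RIn D (Seg i) u (v i)
  ex : ∀ i < n, t i ∈ T ∧ RIn D (insert (v i) (Ex i)) (v i) (t i)
  exr : ∀ i < n, ∀ u ∈ Ex i, RIn D (Ex i) u (t i)
  dSeg : ∀ i < n, ∀ j < n, i ≠ j → Disjoint (Seg i) (Seg j)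
  dEx : ∀ i < n, ∀ j < n, i ≠ j → Disjoint (Ex i) (Ex j)
  dSE : ∀ i < n, ∀ j < n, Disjoint (Seg i) (Ex j)

/-- CMB: no long combs -/
def T_CMB : Prop := ∀ q : ℕ, 1 < q → ∀ φ : ℕ → ℕ, Monotone φ → ∀ N : ℕ, ∃ n : ℕ,
  ∀ (M : Matroid ℕ) (F : Frame) (m : ℕ → Vx), Gam q M → F.Rep M → F.IsPM m → F.Exits m φ →
  F.Feeds m φ → NoRT F m N → ∀ a ∈ F.E, a ∉ F.base m → ∀ (v t : ℕ → Vx) (Seg Ex : ℕ → Set Vx),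
  ¬ Comb (F.D m) (F.snk m) n (Sum.inl a) v t Seg Ex

/-- TRC: large reach in bounded degree gives a comb -/
def T_TRC : Prop := ∀ d n : ℕ, ∃ N : ℕ, ∀ (D : Vx → Vx → Prop) (U : Set Vx), U.Finite →
  (∀ u v, D u v → u ∈ U ∧ v ∈ U) → (∀ u, {v | D u v}.ncard ≤ d) → ∀ (a : Vx) (T : Finset Vx),
  (∀ t ∈ T, (∀ x, ¬ D t x) ∧ RIn D Set.univ a t) → a ∉ T → N < T.card →
  ∃ (v t : ℕ → Vx) (Seg Ex : ℕ → Set Vx), Comb D (T : Set Vx) n a v t Seg Ex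

/-- ISO: an induced path of reachabilities gives a comb in another base -/
def T_ISO : Prop := ∀ (F : Frame) (m : ℕ → Vx), F.IsPM m → ∀ (H : Set Vx) (n : ℕ) (a b : ℕ → ℕ),
  (∀ i < n, a i ∈ F.E ∧ a i ∉ F.base m ∧ b i ∈ F.base m) →
  (∀ i < n, ∀ j < n, i ≠ j → a i ≠ a j ∧ b i ≠ b j) →
  (∀ i < n, ∀ j < n, RIn (F.D m) Hᶜ (Sum.inl (a i)) (Sum.inl (b j)) ↔ (j = i ∨ j + 1 = i)) →
  0 < n → ∃ (m' : ℕ → Vx) (a' : ℕ) (v t : ℕ → Vx) (Seg Ex : ℕ → Set Vx), F.IsPM m' ∧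
    a' ∈ F.E ∧ a' ∉ F.base m' ∧ Comb (F.D m') (F.snk m') (n - 1) (Sum.inl a') v t Seg Ex

/-- DEG: all but two vertices have bounded degree -/
def T_DEG : Prop := ∀ q : ℕ, 1 < q → ∀ φ : ℕ → ℕ, Monotone φ → ∀ N : ℕ, ∃ d : ℕ,
  ∀ (M : Matroid ℕ) (F : Frame) (m : ℕ → Vx), Gam q M → F.Rep M → F.IsPM m → F.Exits m φ →
  F.Feeds m φ → F.Fan m → F.CoFan m → NoRT F m N → NoRT F.dual m N →
  ∃ H : Finset ℕ, H ⊆ F.V ∧ H.card ≤ 2 ∧ ∀ v ∈ F.V, v ∉ H → {x | F.G (Sum.inr v) x}.ncard ≤ d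

/-- CMP: one component carries almost all real elements -/
def T_CMP : Prop := ∀ (M : Matroid ℕ) (F : Frame) (m : ℕ → Vx), F.Rep M → F.IsPM m →
  ∀ (K : Finset ℕ) (f₀ : ℕ), (∀ X ⊆ M.E, lam M X ≤ 2 * K.card → X.ncard ≤ f₀ ∨
    (M.E \ X).ncard ≤ f₀) → 3 * f₀ < M.E.ncard →
  ∃ r ∈ M.E, {s | s ∈ M.E ∧ ¬ RIn F.G (Sum.inr '' (K : Set ℕ))ᶜ (Sum.inl r)
    (Sum.inl s)}.ncard ≤ f₀

/-- real elements joined by a directed walk avoiding `H` -/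
def RelR (F : Frame) (m : ℕ → Vx) (H : Finset ℕ) (r s : ℕ) : Prop := r ≠ s ∧
  (RIn (F.D m) (Sum.inr '' (H : Set ℕ))ᶜ (Sum.inl r) (Sum.inl s) ∨
    RIn (F.D m) (Sum.inr '' (H : Set ℕ))ᶜ (Sum.inl s) (Sum.inl r))

/-- REL: undirected connection gives connection by directed walks -/
def T_REL : Prop := ∀ (F : Frame) (m : ℕ → Vx), F.IsPM m → ∀ H K : Finset ℕ, H ⊆ K →
  (∀ v ∈ F.V, v ∉ K → (∃ t ∈ F.snk m, RIn (F.D m) (Sum.inr '' (H : Set ℕ))ᶜ (Sum.inr v) t) ∧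
    ∃ s ∈ F.src m, RIn (F.D m) (Sum.inr '' (H : Set ℕ))ᶜ s (Sum.inr v)) →
  ∀ r s : ℕ, RIn F.G (Sum.inr '' (K : Set ℕ))ᶜ (Sum.inl r) (Sum.inl s) →
    Relation.ReflTransGen (RelR F m H) r s

/-- DST: long shortest paths in connected relations of bounded degree -/
def T_DST : Prop := ∀ Δ L : ℕ, ∃ n₀ : ℕ, ∀ (A : ℕ → ℕ → Prop) (R : Finset ℕ),
  (∀ x y, A x y → A y x) → (∀ x, {y | A x y}.Finite ∧ {y | A x y}.ncard ≤ Δ) → n₀ < R.card →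
  (∀ x ∈ R, ∀ y ∈ R, Relation.ReflTransGen A x y) →
  ∃ r : ℕ → ℕ, (∀ i ≤ L, ∀ j ≤ L, i ≠ j → r i ≠ r j) ∧
    ∀ i ≤ L, ∀ j ≤ L, i ≠ j → (A (r i) (r j) ↔ (j = i + 1 ∨ i = j + 1))

/-- NCB: bounded reach from every source -/
def T_NCB : Prop := ∀ q : ℕ, 1 < q → ∀ φ : ℕ → ℕ, Monotone φ → ∀ N d : ℕ, ∃ Δ : ℕ,
  ∀ (M : Matroid ℕ) (F : Frame) (m : ℕ → Vx), Gam q M → F.Rep M → F.IsPM m → F.Exits m φ →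
  F.Feeds m φ → NoRT F m N → ∀ H : Finset ℕ,
  (∀ v ∈ F.V, v ∉ H → {x | F.G (Sum.inr v) x}.ncard ≤ d) → ∀ e ∈ F.E, e ∉ F.base m →
  {b | b ∈ F.base m ∧ RIn (F.D m) (Sum.inr '' (H : Set ℕ))ᶜ (Sum.inl e) (Sum.inl b)}.ncard ≤ Δ

/-- BWC: highly connected matroids of the class without large pairs of trees are small -/
def T_BWC : Prop := ∀ q : ℕ, 1 < q → ∀ φ : ℕ → ℕ, Monotone φ → ∀ N : ℕ, ∃ c : ℕ, ∀ f₀ : ℕ,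
  ∃ E₀ : ℕ, ∀ (M : Matroid ℕ) (F : Frame), Gam q M → F.Rep M →
  (∀ m, F.IsPM m → F.Exits m φ ∧ F.Feeds m φ ∧ F.Fan m ∧ F.CoFan m ∧ NoRT F m N ∧
    NoRT F.dual m N) →
  (∀ X ⊆ M.E, lam M X ≤ c → X.ncard ≤ f₀ ∨ (M.E \ X).ncard ≤ f₀) → M.E.ncard ≤ E₀

/-- BW: bounded branch-width -/
def T_BW : Prop := ∀ q : ℕ, 1 < q → ∃ k : ℕ, ∀ M : Matroid ℕ, Gam q M → M.E.Nonempty →
  Brd (lam M) k M.E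

end Pool.Agent.H55.GW
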